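import Pool.Agent.Lib.MP_5949a1_co_h64.Half

/-!
# Almost everything is covered when `C(m,h)` is much larger than `n`
-/

set_option autoImplicit false
set_option linter.unusedSectionVars false

namespace Pool.Agent.MP_5949a1

open Finset

lemma two_mul_choose_two (m : ℕ) : 2 * (m + 1).choose 2 = (m + 1) * m := by
  have := Nat.choose_two_right (m + 1)
  rw [this, Nat.add_sub_cancel]
  exact Nat.mul_div_cancel' (Nat.even_mul_pred_self (m + 1)).two_dvd

lemma quad_le_choose : ∀ (m h : ℕ), 2 ≤ h → h + 2 ≤ m → m * (m - 1) ≤ 2 * m.choose h := by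
  intro m
  induction m with
  | zero => intro h h1 h2; omega
  | succ m ih =>
    intro h h1 h2
    rw [Nat.add_sub_cancel]
    rcases h1.eq_or_lt with h3 | h3
    · subst h3
      rw [two_mul_choose_two]
    rcases h2.eq_or_lt with h4 | h4
    · have h5 : (m + 1).choose h = (m + 1).choose 2 := by
        have : h = m + 1 - 2 := by omega
        rw [this]
        exact Nat.choose_symm (by omega)
      rw [h5, two_mul_choose_two]
    · have h5 := ih h h1 (by omega)
      have h6 := ih (h - 1) (by omega) (by omega)
      obtain ⟨j, rfl⟩ := Nat.exists_eq_add_of_le' (show 1 ≤ h by omega)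
      rw [Nat.choose_succ_succ]
      rw [Nat.add_sub_cancel] at h6
      obtain ⟨t, ht⟩ := Nat.exists_eq_add_of_le' (show 3 ≤ m by omega)
      have e : m - 1 = t + 2 := by omega
      rw [e] at h5 h6
      subst ht
      nlinarith

variable {G : Type*} [AddCommGroup G] [Fintype G] [DecidableEq G]

/-- If `C(m,h) ≥ K n` then all but about `n/(K+1) + 2 √(K n)` elements are covered. -/
theorem large (K : ℕ) (hK : 1 ≤ K) {m : ℕ} : ∀ h : ℕ, 1 ≤ h → h ≤ m → m ≤ Fintype.card G →
    K * Fintype.card G ≤ m.choose h →
    K * (Fintype.card G - Nat.sqrt (4 * K * Fintype.card G)) ≤ (K + 1) * nuHat G m h := by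
  set n := Fintype.card G with hn
  induction m with
  | zero => intro h h1 h2; omega
  | succ m ih =>
    intro h hh hm hmn hC
    by_cases h1 : K * n ≤ m.choose h ∧ h ≤ m
    · exact (ih h hh h1.2 (by omega) h1.1).trans (Nat.mul_le_mul_left _ (nuHat_mono_left h hmn))
    by_cases h2 : K * n ≤ m.choose (h - 1) ∧ 1 ≤ h - 1
    · have h4 := nuHat_mono_both (G := G) (m := m) (h - 1) hmn
      rw [Nat.sub_add_cancel hh] at h4
      exact (ih (h - 1) h2.2 (by omega) (by omega) h2.1).trans (Nat.mul_le_mul_left _ h4)
    -- small cases: `K = 1`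
    by_cases hK1 : K = 1
    · subst hK1
      have h3 := half (G := G) h hh hm hmn
      rw [← hn, min_eq_left (by simpa using hC)] at h3
      have : n - Nat.sqrt (4 * 1 * n) ≤ n := Nat.sub_le _ _
      omega
    have hnpos : 0 < n := by omega
    have hK2 : 2 * n ≤ K * n := Nat.mul_le_mul_right _ (by omega)
    have hh2 : 2 ≤ h := by
      by_contra hcon
      have : h = 1 := by omega
      subst this
      rw [Nat.choose_one_right] at hC
      omega
    have hhm : h + 2 ≤ m + 1 := by
      by_contra hcon
      rcases hm.eq_or_lt with h3 | h3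
      · subst h3; rw [Nat.choose_self] at hC; omega
      · have : h = m := by omega
        subst this
        rw [Nat.choose_succ_self_right] at hC
        omega
    have h3 : m.choose h < K * n := by
      by_contra hcon
      push Not at hcon
      exact h1 ⟨hcon, by omega⟩
    have h4 : m.choose (h - 1) < K * n := by
      by_contra hcon
      push Not at hcon
      exact h2 ⟨hcon, by omega⟩
    have h5 : (m + 1).choose h < 2 * (K * n) := by
      obtain ⟨j, rfl⟩ := Nat.exists_eq_add_of_le' hh
      rw [Nat.choose_succ_succ']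
      simp only [Nat.add_one_sub_one] at h4
      omega
    have h6 := quad_le_choose (m + 1) h hh2 hhm
    rw [Nat.add_sub_cancel] at h6
    have h7 : m ≤ Nat.sqrt (4 * K * n) := by
      rw [Nat.le_sqrt]
      nlinarith
    have hav := averaging (G := G) hm (by omega) hmn
    rw [← hn] at hav
    set C := (m + 1).choose h
    set ν := nuHat G (m + 1) h
    have hCpos : 0 < C := Nat.choose_pos hm
    have e1 : n - (m + 1) + 1 = n - m := by omega
    rw [e1] at hav
    have h8 : K * (n - (m + 1) + (C - h * (m + 1 - h))) ≤ (K + 1) * C := by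
      have h9 : n - (m + 1) + (C - h * (m + 1 - h)) ≤ n + C :=
        Nat.add_le_add (Nat.sub_le _ _) (Nat.sub_le _ _)
      calc _ ≤ K * (n + C) := Nat.mul_le_mul_left _ h9
        _ = K * n + K * C := by ring
        _ ≤ C + K * C := Nat.add_le_add_right hC _
        _ = _ := by ring
    have h10 : C * (K * (n - m)) ≤ C * ((K + 1) * ν) := by
      calc C * (K * (n - m)) = K * (C * (n - m)) := by ring
        _ ≤ K * (ν * (n - (m + 1) + (C - h * (m + 1 - h)))) := Nat.mul_le_mul_left _ hav
        _ = ν * (K * (n - (m + 1) + (C - h * (m + 1 - h)))) := by ring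
        _ ≤ ν * ((K + 1) * C) := Nat.mul_le_mul_left _ h8
        _ = _ := by ring
    have h11 := Nat.le_of_mul_le_mul_left h10 hCpos
    exact (Nat.mul_le_mul_left _ (Nat.sub_le_sub_left h7 n)).trans h11

end Pool.Agent.MP_5949a1
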