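import Pool.Agent.Lib.MP_5949a1_co_h64.Basic

/-!
# Ranges in which the trivial bound is attained
-/

set_option autoImplicit false

namespace Pool.Agent.MP_5949a1

open Finset

/-! ### everything is covered -/

lemma rSum_union {G : Type*} [AddCommGroup G] [DecidableEq G] {A B : Finset G} (hAB : Disjoint A B)
    {k : ℕ} {s t : G} (hs : s ∈ rSum A k) (ht : t ∈ B) : s + t ∈ rSum (A ∪ B) (k + 1) := by
  obtain ⟨I, hI, rfl⟩ := Finset.mem_image.1 hs
  obtain ⟨hI1, hI2⟩ := Finset.mem_powersetCard.1 hI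
  have htI : t ∉ I := fun h => Finset.disjoint_left.1 hAB (hI1 h) ht
  refine Finset.mem_image.2 ⟨insert t I, Finset.mem_powersetCard.2 ⟨?_, ?_⟩, ?_⟩
  · intro x hx
    rcases Finset.mem_insert.1 hx with rfl | hx
    · exact Finset.mem_union_right _ ht
    · exact Finset.mem_union_left _ (hI1 hx)
  · rw [Finset.card_insert_of_notMem htI, hI2]
  · rw [Finset.sum_insert htI, add_comm]

/-- digits -/
lemma cover (n b : ℕ) [NeZero n] (hb : 1 ≤ b) : ∀ i : ℕ, (i - 1) * b ^ 2 < n →
    ∃ A : Finset (ZMod n), A.card ≤ i * b ∧ ∃ c : ZMod n, ∀ x : ℕ, x < b ^ i → x < n →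
      c + (x : ZMod n) ∈ rSum A i := by
  intro i
  induction i with
  | zero =>
    intro _
    refine ⟨∅, by simp, 0, fun x hx _ => ?_⟩
    have : x = 0 := by simpa using hx
    subst this
    simp [rSum]
  | succ i ih =>
    intro hi
    rw [Nat.add_sub_cancel] at hi
    have hbsq : 0 < b ^ 2 := by positivity
    obtain ⟨A, hA, c, hc⟩ := ih ((Nat.mul_le_mul_right _ (Nat.sub_le i 1)).trans_lt hi)
    set D : Finset (ZMod n) := ((Finset.range b).filter fun d => d * b ^ i < n).image
      fun d => ((d * b ^ i : ℕ) : ZMod n) with hD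
    have hDc : D.card ≤ b := by
      refine Finset.card_image_le.trans ((Finset.card_le_card (Finset.filter_subset _ _)).trans ?_)
      simp
    -- a good translate
    set Bad : Finset (ZMod n) := (A ×ˢ D).image fun p => p.1 - p.2 with hBad
    have hBadc : Bad.card < Fintype.card (ZMod n) := by
      rw [ZMod.card]
      refine lt_of_le_of_lt (Finset.card_image_le.trans ?_) hi
      rw [Finset.card_product]
      calc A.card * D.card ≤ (i * b) * b := Nat.mul_le_mul hA hDc
        _ = i * b ^ 2 := by ring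
    obtain ⟨y, hy⟩ := exists_notMem hBadc
    set B : Finset (ZMod n) := D.image fun δ => y + δ with hB
    have hdisj : Disjoint A B := by
      rw [Finset.disjoint_left]
      intro a ha haB
      obtain ⟨δ, hδ, hδ'⟩ := Finset.mem_image.1 haB
      apply hy
      refine Finset.mem_image.2 ⟨(a, δ), Finset.mem_product.2 ⟨ha, hδ⟩, ?_⟩
      simp only
      rw [← hδ']; ring
    refine ⟨A ∪ B, ?_, c + y, fun x hx hxn => ?_⟩
    · refine (Finset.card_union_le A B).trans ?_
      have : B.card ≤ b := Finset.card_image_le.trans hDc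
      calc A.card + B.card ≤ i * b + b := Nat.add_le_add hA this
        _ = (i + 1) * b := by ring
    · have hbi : 0 < b ^ i := by positivity
      have h1 : x % b ^ i < b ^ i := Nat.mod_lt _ hbi
      have h2 : x / b ^ i < b := by
        rw [Nat.div_lt_iff_lt_mul hbi, mul_comm, ← pow_succ]; exact hx
      have h3 : x / b ^ i * b ^ i + x % b ^ i = x := Nat.div_add_mod' x (b ^ i)
      have h4 : c + ((x % b ^ i : ℕ) : ZMod n) ∈ rSum A i :=
        hc _ h1 (lt_of_le_of_lt (Nat.mod_le _ _) hxn)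
      have h5 : ((x / b ^ i * b ^ i : ℕ) : ZMod n) ∈ D := by
        exact Finset.mem_image.2 ⟨x / b ^ i, Finset.mem_filter.2 ⟨Finset.mem_range.2 h2,
          lt_of_le_of_lt (Nat.div_mul_le_self x (b ^ i)) hxn⟩, rfl⟩
      have h6 := rSum_union hdisj h4 (Finset.mem_image_of_mem (fun δ => y + δ) h5)
      have h7 : c + ((x % b ^ i : ℕ) : ZMod n) + (y + ((x / b ^ i * b ^ i : ℕ) : ZMod n)) =
          c + y + (x : ZMod n) := by
        conv_rhs => rw [← h3, Nat.cast_add]
        ring
      rw [← h7]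
      exact h6

theorem exact_n (n b k m h : ℕ) [NeZero n] (hb : 1 ≤ b) (hbk : n ≤ b ^ k) (hkb : (k - 1) * b ^ 2 < n)
    (hkh : k ≤ h) (hhm : h ≤ m) (hkm : k * (b - 1) ≤ m - h) (hm : m ≤ n) :
    nuHat (ZMod n) m h = n := by
  refine le_antisymm ((nuHat_le_card m h).trans (ZMod.card n).le) ?_
  obtain ⟨A, hA, c, hc⟩ := cover n b hb k hkb
  have h1 : (rSum A k) = Finset.univ := by
    refine Finset.eq_univ_iff_forall.2 fun z => ?_
    have h2 := hc (z - c).val ((ZMod.val_lt _).trans_le hbk) (ZMod.val_lt _)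
    rwa [ZMod.natCast_zmod_val, add_sub_cancel] at h2
  have h2 : n ≤ nuHat (ZMod n) A.card k := by
    have := card_rSum_le A k
    rwa [h1, Finset.card_univ, ZMod.card] at this
  have h3 : k ≤ A.card := by
    have h4 : (rSum A k).Nonempty := by rw [h1]; exact Finset.univ_nonempty
    obtain ⟨z, hz⟩ := h4
    obtain ⟨I, hI, -⟩ := Finset.mem_image.1 hz
    rw [Finset.mem_powersetCard] at hI
    rw [← hI.2]
    exact Finset.card_le_card hI.1
  refine h2.trans (nuHat_mono hkh hhm ?_ h3 (by rw [ZMod.card]; exact hm))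
  have h5 : k * b = k * (b - 1) + k := by
    obtain ⟨b', rfl⟩ := Nat.exists_eq_add_of_le' hb
    rw [Nat.add_sub_cancel]; ring
  omega

/-! ### symmetry -/

lemma card_rSum_compl {G : Type*} [AddCommGroup G] [DecidableEq G] (A : Finset G) (h : ℕ) : (rSum A h).card ≤ (rSum A (A.card - h)).card := by
  have h1 : (rSum A h).image (fun y => (∑ a ∈ A, a) - y) ⊆ rSum A (A.card - h) := by
    intro z hz
    obtain ⟨y, hy, rfl⟩ := Finset.mem_image.1 hz
    obtain ⟨I, hI, rfl⟩ := Finset.mem_image.1 hy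
    obtain ⟨hI1, hI2⟩ := Finset.mem_powersetCard.1 hI
    refine Finset.mem_image.2 ⟨A \ I, Finset.mem_powersetCard.2 ⟨Finset.sdiff_subset, ?_⟩, ?_⟩
    · rw [Finset.card_sdiff_of_subset hI1, hI2]
    · rw [eq_sub_iff_add_eq]
      exact Finset.sum_sdiff hI1
  calc (rSum A h).card = ((rSum A h).image (fun y => (∑ a ∈ A, a) - y)).card :=
        (Finset.card_image_of_injective _ sub_right_injective).symm
    _ ≤ _ := Finset.card_le_card h1

lemma nuHat_symm_le {G : Type*} [AddCommGroup G] [Fintype G] [DecidableEq G] (m h : ℕ) :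
    nuHat G m h ≤ nuHat G m (m - h) := by
  refine Finset.sup_le fun A hA => ?_
  have hAc := (Finset.mem_powersetCard.1 hA).2
  have h1 := card_rSum_compl A h
  refine h1.trans ?_
  rw [hAc]
  have h2 := card_rSum_le A (m - h)
  rwa [hAc] at h2

lemma nuHat_symm {G : Type*} [AddCommGroup G] [Fintype G] [DecidableEq G] {m h : ℕ}
    (hh : h ≤ m) : nuHat G m (m - h) = nuHat G m h := by
  refine le_antisymm ?_ (nuHat_symm_le m h)
  have := nuHat_symm_le (G := G) m (m - h)
  rwa [Nat.sub_sub_self hh] at this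

/-! ### all sums are different -/

lemma all_distinct {ι : Type*} [DecidableEq ι] (n h : ℕ) [NeZero n] (s : Finset ι) (f : ι → ℕ)
    (hf : ∀ x ∈ s, f x < n) (hfi : Set.InjOn f s)
    (hlt : ∀ I ⊆ s, I.card = h → ∑ x ∈ I, f x < n)
    (hinj : ∀ I ⊆ s, ∀ J ⊆ s, I.card = h → J.card = h → ∑ x ∈ I, f x = ∑ x ∈ J, f x → I = J) :
    s.card.choose h ≤ nuHat (ZMod n) s.card h := by
  have hval : ∀ a b : ℕ, a < n → b < n → ((a : ℕ) : ZMod n) = (b : ZMod n) → a = b := by
    intro a b ha hb hab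
    have := congrArg ZMod.val hab
    rwa [ZMod.val_cast_of_lt ha, ZMod.val_cast_of_lt hb] at this
  set g : ι → ZMod n := fun x => (f x : ZMod n) with hg
  have hgi : Set.InjOn g s := by
    intro x hx y hy hxy
    exact hfi hx hy (hval _ _ (hf x hx) (hf y hy) hxy)
  set A : Finset (ZMod n) := s.image g with hA
  have hAc : A.card = s.card := Finset.card_image_of_injOn hgi
  rw [← Finset.card_powersetCard, ← hAc]
  refine le_trans ?_ (card_rSum_le A h)
  refine Finset.card_le_card_of_injOn (fun I => ∑ x ∈ I, g x) ?_ ?_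
  · intro I hI
    rw [Finset.mem_coe, Finset.mem_powersetCard] at hI
    rw [Finset.mem_coe]
    have hgI : Set.InjOn g I := hgi.mono (Finset.coe_subset.2 hI.1)
    refine Finset.mem_image.2 ⟨I.image g, Finset.mem_powersetCard.2
      ⟨Finset.image_subset_image hI.1, ?_⟩, ?_⟩
    · rw [Finset.card_image_of_injOn hgI, hI.2]
    · exact Finset.sum_image hgI
  · intro I hI J hJ hIJ
    rw [Finset.mem_coe, Finset.mem_powersetCard] at hI hJ
    refine hinj I hI.1 J hJ.1 hI.2 hJ.2 (hval _ _ (hlt I hI.1 hI.2) (hlt J hJ.1 hJ.2) ?_)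
    rw [Nat.cast_sum, Nat.cast_sum]
    exact hIJ

theorem exact_two_pow (n m h : ℕ) [NeZero n] (hn : 2 ^ m ≤ n) :
    nuHat (ZMod n) m h = m.choose h := by
  refine le_antisymm (nuHat_le_choose m h) ?_
  have h0 : ∀ I : Finset ℕ, I ⊆ Finset.range m → ∑ i ∈ I, 2 ^ i < 2 ^ m := by
    intro I hI
    calc ∑ i ∈ I, 2 ^ i ≤ ∑ i ∈ Finset.range m, 2 ^ i := Finset.sum_le_sum_of_subset hI
      _ = 2 ^ m - 1 := by rw [Nat.geomSum_eq le_rfl]; simp
      _ < 2 ^ m := Nat.sub_lt (by positivity) one_pos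
  have h1 := all_distinct n h (Finset.range m) (fun i => 2 ^ i) ?_ ?_ ?_ ?_
  · rwa [Finset.card_range] at h1
  · intro x hx
    exact (Nat.pow_lt_pow_right (by norm_num) (Finset.mem_range.1 hx)).trans_le hn
  · intro x _ y _ hxy
    exact Nat.pow_right_injective le_rfl hxy
  · intro I hI _
    exact (h0 I hI).trans_le hn
  · intro I _ J _ _ _ hIJ
    exact Finset.geomSum_injective le_rfl hIJ

end Pool.Agent.MP_5949a1
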