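import Pool.Agent.Lib.MP_5949a1_co_h64.Basic

/-!
# The averaging bound
-/

set_option autoImplicit false
set_option linter.unusedSectionVars false

namespace Pool.Agent.MP_5949a1

open Finset

/-- Cauchy–Schwarz: few coincidences force a large image. -/
lemma card_sq_le {α β : Type*} [DecidableEq α] [DecidableEq β] (s : Finset α) (f : α → β) :
    s.card ^ 2 ≤ (s.image f).card * ∑ x ∈ s, (s.filter fun y => f y = f x).card := by
  have h1 : s.card = ∑ b ∈ s.image f, (s.filter fun y => f y = b).card :=
    Finset.card_eq_sum_card_image f s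
  have h2 : ∑ x ∈ s, (s.filter fun y => f y = f x).card =
      ∑ b ∈ s.image f, (s.filter fun y => f y = b).card ^ 2 := by
    rw [← Finset.sum_fiberwise_of_maps_to (s := s) (t := s.image f) (g := f)
      (fun x hx => Finset.mem_image_of_mem f hx)]
    refine Finset.sum_congr rfl fun b _ => ?_
    have h3 : ∀ x ∈ s.filter (fun y => f y = b), (s.filter fun y => f y = f x).card =
        (s.filter fun y => f y = b).card := by
      intro x hx
      rw [(Finset.mem_filter.1 hx).2]
    rw [Finset.sum_congr rfl h3, Finset.sum_const, smul_eq_mul, sq]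
  rw [h2]
  conv_lhs => rw [h1]
  exact sq_sum_le_card_mul_sum_sq

/-- every `h`-subset has at least `h(m-h)+1` neighbours (itself included) -/
lemma near_card {m h : ℕ} (I : Finset (Fin m)) (hI : I.card = h) :
    h * (m - h) + 1 ≤ (((Finset.univ : Finset (Fin m)).powersetCard h).filter
      fun J => (I \ J).card ≤ 1).card := by
  classical
  set g : Fin m × Fin m → Finset (Fin m) := fun p => insert p.2 (I.erase p.1) with hg
  have hinj : Set.InjOn g (I ×ˢ Iᶜ : Finset (Fin m × Fin m)) := by
    rintro ⟨i, j⟩ h1 ⟨i', j'⟩ h2 heq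
    simp only [Finset.coe_product, Set.mem_prod, Finset.mem_coe, Finset.mem_compl] at h1 h2
    simp only [hg] at heq
    have hj : j = j' := by
      have : j ∈ insert j' (I.erase i') := heq ▸ Finset.mem_insert_self j _
      rcases Finset.mem_insert.1 this with h | h
      · exact h
      · exact absurd (Finset.mem_of_mem_erase h) h1.2
    have hi : i = i' := by
      by_contra hne
      have h3 : i ∈ insert j' (I.erase i') :=
        Finset.mem_insert_of_mem (Finset.mem_erase.2 ⟨hne, h1.1⟩)
      rw [← heq] at h3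
      rcases Finset.mem_insert.1 h3 with h | h
      · exact h1.2 (h ▸ h1.1)
      · exact (Finset.notMem_erase i I) h
    rw [hi, hj]
  have hI' : I ∉ (I ×ˢ Iᶜ).image g := by
    intro hmem
    obtain ⟨⟨i, j⟩, hij, heq⟩ := Finset.mem_image.1 hmem
    simp only [Finset.mem_product, Finset.mem_compl] at hij
    simp only [hg] at heq
    exact hij.2 (heq ▸ Finset.mem_insert_self j _)
  have hcard : (insert I ((I ×ˢ Iᶜ).image g)).card = h * (m - h) + 1 := by
    rw [Finset.card_insert_of_notMem hI', Finset.card_image_of_injOn hinj, Finset.card_product,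
      Finset.card_compl, hI, Fintype.card_fin]
  rw [← hcard]
  refine Finset.card_le_card fun J hJ => ?_
  rw [Finset.mem_filter, Finset.mem_powersetCard]
  rcases Finset.mem_insert.1 hJ with rfl | hJ
  · exact ⟨⟨Finset.subset_univ _, hI⟩, by simp⟩
  · obtain ⟨⟨i, j⟩, hij, rfl⟩ := Finset.mem_image.1 hJ
    simp only [Finset.mem_product, Finset.mem_compl] at hij
    simp only [hg]
    have hj : j ∉ I.erase i := fun h => hij.2 (Finset.mem_of_mem_erase h)
    have hpos : 0 < I.card := Finset.card_pos.2 ⟨i, hij.1⟩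
    refine ⟨⟨Finset.subset_univ _, ?_⟩, ?_⟩
    · rw [Finset.card_insert_of_notMem hj, Finset.card_erase_of_mem hij.1]; omega
    · refine (Finset.card_le_card (t := {i}) fun x hx => ?_).trans (by simp)
      rw [Finset.mem_sdiff, Finset.mem_insert, Finset.mem_erase] at hx
      push Not at hx
      rw [Finset.mem_singleton]
      by_contra hne
      exact hx.2.2 hne hx.1

variable {G : Type*} [AddCommGroup G] [Fintype G] [DecidableEq G]

/-- number of embeddings with a given coincidence -/
lemma card_coincidence {m : ℕ} (I J : Finset (Fin (m + 1))) (i : Fin (m + 1)) (hi : i ∈ I)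
    (hj : i ∉ J) :
    ((Finset.univ : Finset (Fin (m + 1) ↪ G)).filter fun a => ∑ x ∈ J, a x = ∑ x ∈ I, a x).card ≤
      (Fintype.card G).descFactorial m := by
  classical
  have h1 : (Fintype.card G).descFactorial m = Fintype.card ({x : Fin (m + 1) // x ≠ i} ↪ G) := by
    rw [Fintype.card_embedding_eq, Fintype.card_subtype_compl, Fintype.card_subtype_eq]
    simp
  rw [h1, ← Finset.card_univ]
  refine Finset.card_le_card_of_injOn
    (fun a => (Function.Embedding.subtype (fun x : Fin (m + 1) => x ≠ i)).trans a)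
    (fun _ _ => Finset.mem_coe.2 (Finset.mem_univ _)) ?_
  intro a ha b hb hab
  have hab' : ∀ x, x ≠ i → a x = b x := by
    intro x hx
    have := DFunLike.congr_fun hab (⟨x, hx⟩ : {x : Fin (m + 1) // x ≠ i})
    exact this
  rw [Finset.mem_coe, Finset.mem_filter] at ha hb
  have h2 : ∑ x ∈ J, a x = ∑ x ∈ J, b x :=
    Finset.sum_congr rfl fun x hx => hab' x (fun h => hj (h ▸ hx))
  have h3 : ∑ x ∈ I.erase i, a x = ∑ x ∈ I.erase i, b x :=
    Finset.sum_congr rfl fun x hx => hab' x (Finset.ne_of_mem_erase hx)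
  have h4 := ha.2
  have h5 := hb.2
  rw [← Finset.add_sum_erase I _ hi] at h4 h5
  have h6 : a i = b i := by
    have : a i + ∑ x ∈ I.erase i, b x = b i + ∑ x ∈ I.erase i, b x := by
      rw [← h5, ← h2, h4, h3]
    exact add_right_cancel this
  refine DFunLike.ext _ _ fun x => ?_
  by_cases hx : x = i
  · rw [hx, h6]
  · exact hab' x hx

/-- neighbouring subsets never have the same sum -/
lemma no_coincidence {m : ℕ} (I J : Finset (Fin m)) (hcard : I.card = J.card)
    (h1 : (I \ J).card ≤ 1) (hne : J ≠ I) (a : Fin m ↪ G) : ∑ x ∈ J, a x ≠ ∑ x ∈ I, a x := by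
  classical
  intro heq
  have h2 : (J \ I).card = (I \ J).card := Finset.card_sdiff_comm hcard.symm
  have h3 : (I \ J).card ≠ 0 := by
    intro h0
    rw [Finset.card_eq_zero, Finset.sdiff_eq_empty_iff_subset] at h0
    exact hne (Finset.eq_of_subset_of_card_le h0 hcard.ge).symm
  have h4 : (I \ J).card = 1 := by omega
  obtain ⟨i, hi⟩ := Finset.card_eq_one.1 h4
  obtain ⟨j, hj⟩ := Finset.card_eq_one.1 (h2.trans h4)
  have h5 : ∑ x ∈ I \ J, a x + ∑ x ∈ I ∩ J, a x = ∑ x ∈ I, a x := by
    rw [add_comm]; exact Finset.sum_inter_add_sum_sdiff I J _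
  have h6 : ∑ x ∈ J \ I, a x + ∑ x ∈ J ∩ I, a x = ∑ x ∈ J, a x := by
    rw [add_comm]; exact Finset.sum_inter_add_sum_sdiff J I _
  rw [hi, Finset.sum_singleton] at h5
  rw [hj, Finset.sum_singleton, Finset.inter_comm] at h6
  have h7 : a i = a j := by
    have : a i + ∑ x ∈ I ∩ J, a x = a j + ∑ x ∈ I ∩ J, a x := by rw [h5, h6, heq]
    exact add_right_cancel this
  have h8 : i = j := a.injective h7
  have h9 : i ∈ I \ J := by rw [hi]; exact Finset.mem_singleton_self i
  have h10 : j ∈ J \ I := by rw [hj]; exact Finset.mem_singleton_self j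
  rw [← h8] at h10
  exact (Finset.mem_sdiff.1 h9).2 (Finset.mem_sdiff.1 h10).1

/-- **The averaging bound.** -/
theorem averaging {m h : ℕ} (hh : h ≤ m) (hm1 : 1 ≤ m) (hm : m ≤ Fintype.card G) :
    m.choose h * (Fintype.card G - m + 1) ≤
      nuHat G m h * (Fintype.card G - m + (m.choose h - h * (m - h))) := by
  classical
  obtain ⟨m, rfl⟩ := Nat.exists_eq_add_of_le' hm1
  set n := Fintype.card G with hn
  set P := (Finset.univ : Finset (Fin (m + 1))).powersetCard h with hP
  have hPc : P.card = (m + 1).choose h := by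
    rw [hP, Finset.card_powersetCard, Finset.card_univ, Fintype.card_fin]
  set C := (m + 1).choose h with hC
  have hCpos : 0 < C := Nat.choose_pos hh
  -- per embedding
  have key1 : ∀ a : Fin (m + 1) ↪ G, C ^ 2 ≤ nuHat G (m + 1) h *
      ∑ I ∈ P, (P.filter fun J => ∑ x ∈ J, a x = ∑ x ∈ I, a x).card := by
    intro a
    have h1 := card_sq_le P (fun I => ∑ x ∈ I, a x)
    rw [hPc] at h1
    refine h1.trans (Nat.mul_le_mul_right _ ?_)
    have h2 : (P.image fun I => ∑ x ∈ I, a x) ⊆ rSum (Finset.univ.map a) h := by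
      intro y hy
      obtain ⟨I, hI, rfl⟩ := Finset.mem_image.1 hy
      refine Finset.mem_image.2 ⟨I.map a, Finset.mem_powersetCard.2
        ⟨Finset.map_subset_map.2 (Finset.subset_univ I), ?_⟩, ?_⟩
      · rw [Finset.card_map]; exact (Finset.mem_powersetCard.1 hI).2
      · exact Finset.sum_map I a _
    calc _ ≤ (rSum (Finset.univ.map a) h).card := Finset.card_le_card h2
      _ ≤ nuHat G (Finset.univ.map a).card h := card_rSum_le _ _
      _ = nuHat G (m + 1) h := by rw [Finset.card_map, Finset.card_univ, Fintype.card_fin]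
  -- sum over embeddings
  set D := n.descFactorial m with hD
  have hDpos : 0 < D := Nat.descFactorial_pos.2 (by omega)
  have hE : Fintype.card (Fin (m + 1) ↪ G) = (n - m) * D := by
    rw [Fintype.card_embedding_eq, Fintype.card_fin, Nat.descFactorial_succ]
  have key2 : (n - m) * D * C ^ 2 ≤ nuHat G (m + 1) h *
      ∑ a : Fin (m + 1) ↪ G, ∑ I ∈ P, (P.filter fun J => ∑ x ∈ J, a x = ∑ x ∈ I, a x).card := by
    rw [← hE, ← Finset.card_univ, ← smul_eq_mul, ← Finset.sum_const, Finset.mul_sum]
    exact Finset.sum_le_sum fun a _ => key1 a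
  have key3 : ∑ a : Fin (m + 1) ↪ G, ∑ I ∈ P,
      (P.filter fun J => ∑ x ∈ J, a x = ∑ x ∈ I, a x).card =
      ∑ I ∈ P, ∑ J ∈ P, ((Finset.univ : Finset (Fin (m + 1) ↪ G)).filter
        fun a => ∑ x ∈ J, a x = ∑ x ∈ I, a x).card := by
    rw [Finset.sum_comm]
    refine Finset.sum_congr rfl fun I _ => ?_
    simp only [Finset.card_filter]
    rw [Finset.sum_comm]
  have key4 : ∀ I ∈ P, ∑ J ∈ P, ((Finset.univ : Finset (Fin (m + 1) ↪ G)).filter
      fun a => ∑ x ∈ J, a x = ∑ x ∈ I, a x).card ≤
      (n - m) * D + (C - (h * (m + 1 - h) + 1)) * D := by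
    intro I hI
    have hIc : I.card = h := (Finset.mem_powersetCard.1 hI).2
    rw [← Finset.sum_filter_add_sum_filter_not P (fun J => (I \ J).card ≤ 1)]
    refine Nat.add_le_add ?_ ?_
    · -- neighbours: only `J = I` contributes
      rw [Finset.sum_eq_single I]
      · rw [← hE, ← Finset.card_univ]
        exact Finset.card_le_card (Finset.filter_subset _ _)
      · intro J hJ hne
        rw [Finset.mem_filter] at hJ
        rw [Finset.card_eq_zero, Finset.filter_eq_empty_iff]
        intro a _
        exact no_coincidence I J (hIc.trans (Finset.mem_powersetCard.1 hJ.1).2.symm) hJ.2 hne a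
      · intro hI'
        exfalso
        apply hI'
        rw [Finset.mem_filter]
        exact ⟨hI, by simp⟩
    · have h1 : ∀ J ∈ P.filter (fun J => ¬ (I \ J).card ≤ 1),
          ((Finset.univ : Finset (Fin (m + 1) ↪ G)).filter
            fun a => ∑ x ∈ J, a x = ∑ x ∈ I, a x).card ≤ D := by
        intro J hJ
        rw [Finset.mem_filter] at hJ
        have h2 : 0 < (I \ J).card := by omega
        obtain ⟨i, hi⟩ := Finset.card_pos.1 h2
        rw [Finset.mem_sdiff] at hi
        exact card_coincidence I J i hi.1 hi.2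
      refine (Finset.sum_le_card_nsmul _ _ D h1).trans ?_
      rw [smul_eq_mul]
      refine Nat.mul_le_mul_right _ ?_
      have h3 := Finset.card_filter_add_card_filter_not (s := P) (fun J => (I \ J).card ≤ 1)
      have h4 := near_card I hIc
      rw [← hP] at h4
      rw [hPc] at h3
      omega
  have key5 : ∑ I ∈ P, ∑ J ∈ P, ((Finset.univ : Finset (Fin (m + 1) ↪ G)).filter
      fun a => ∑ x ∈ J, a x = ∑ x ∈ I, a x).card ≤
      C * ((n - m) * D + (C - (h * (m + 1 - h) + 1)) * D) := by
    refine (Finset.sum_le_card_nsmul _ _ _ key4).trans ?_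
    rw [hPc, smul_eq_mul]
  have hnear : h * (m + 1 - h) + 1 ≤ C := by
    obtain ⟨I, hI⟩ : P.Nonempty := Finset.card_pos.1 (hPc ▸ hCpos)
    refine (near_card I (Finset.mem_powersetCard.1 hI).2).trans ?_
    rw [← hPc]
    exact Finset.card_le_card (Finset.filter_subset _ _)
  rw [key3] at key2
  have key6 := key2.trans (Nat.mul_le_mul_left _ key5)
  -- divide by `C * D`
  have h1 : n - (m + 1) + 1 = n - m := by omega
  have h2 : n - (m + 1) + (C - h * (m + 1 - h)) = (n - m) + (C - (h * (m + 1 - h) + 1)) := by omega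
  rw [h1, h2]
  have h3 : (C * D) * (C * (n - m)) ≤
      (C * D) * (nuHat G (m + 1) h * ((n - m) + (C - (h * (m + 1 - h) + 1)))) := by
    calc (C * D) * (C * (n - m)) = (n - m) * D * C ^ 2 := by ring
      _ ≤ _ := key6
      _ = _ := by ring
  exact Nat.le_of_mul_le_mul_left h3 (Nat.mul_pos hCpos hDpos)

end Pool.Agent.MP_5949a1
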