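import Mathlib

/-!
# Restricted sumsets: definitions and first properties
-/

set_option autoImplicit false

namespace Pool.Agent.MP_5949a1

open Finset

/-- The restricted `h`-fold sumset of `A`: all sums of `h` distinct elements of `A`. -/
def rSum {G : Type*} [AddCommGroup G] [DecidableEq G] (A : Finset G) (h : ℕ) : Finset G :=
  (A.powersetCard h).image fun I => ∑ a ∈ I, a

/-- The largest size of a restricted `h`-fold sumset of an `m`-element subset of `G`. -/
def nuHat (G : Type*) [AddCommGroup G] [Fintype G] [DecidableEq G] (m h : ℕ) : ℕ :=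
  ((Finset.univ : Finset G).powersetCard m).sup fun A => (rSum A h).card

section general

variable {G : Type*} [AddCommGroup G] [Fintype G] [DecidableEq G]

lemma card_rSum_le (A : Finset G) (h : ℕ) : (rSum A h).card ≤ nuHat G A.card h :=
  Finset.le_sup (f := fun A : Finset G => (rSum A h).card)
    (Finset.mem_powersetCard.2 ⟨Finset.subset_univ A, rfl⟩)

lemma exists_attain {m : ℕ} (h : ℕ) (hm : m ≤ Fintype.card G) :
    ∃ A : Finset G, A.card = m ∧ (rSum A h).card = nuHat G m h := by
  have hne : ((Finset.univ : Finset G).powersetCard m).Nonempty :=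
    Finset.powersetCard_nonempty.2 (by rwa [Finset.card_univ])
  obtain ⟨A, hA, hA'⟩ := Finset.exists_mem_eq_sup _ hne (fun A : Finset G => (rSum A h).card)
  exact ⟨A, (Finset.mem_powersetCard.1 hA).2, hA'.symm⟩

lemma nuHat_le_choose (m h : ℕ) : nuHat G m h ≤ m.choose h := by
  refine Finset.sup_le fun A hA => ?_
  rw [← (Finset.mem_powersetCard.1 hA).2, ← Finset.card_powersetCard]
  exact Finset.card_image_le

lemma nuHat_le_card (m h : ℕ) : nuHat G m h ≤ Fintype.card G :=
  Finset.sup_le fun A _ => Finset.card_le_univ _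

lemma rSum_mono {A B : Finset G} (hAB : A ⊆ B) (h : ℕ) : rSum A h ⊆ rSum B h :=
  Finset.image_subset_image (Finset.powersetCard_mono hAB)

lemma exists_notMem {A : Finset G} (hA : A.card < Fintype.card G) : ∃ x, x ∉ A := by
  by_contra hcon
  push Not at hcon
  have : A = Finset.univ := Finset.eq_univ_iff_forall.2 hcon
  rw [this, Finset.card_univ] at hA
  exact lt_irrefl _ hA

lemma nuHat_mono_left {m : ℕ} (h : ℕ) (hm : m + 1 ≤ Fintype.card G) :
    nuHat G m h ≤ nuHat G (m + 1) h := by
  obtain ⟨A, hA, hA'⟩ := exists_attain (G := G) h (Nat.le_of_succ_le hm)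
  obtain ⟨x, hx⟩ := exists_notMem (A := A) (by omega)
  rw [← hA']
  calc (rSum A h).card ≤ (rSum (insert x A) h).card :=
        Finset.card_le_card (rSum_mono (Finset.subset_insert x A) h)
    _ ≤ nuHat G (insert x A).card h := card_rSum_le _ _
    _ = nuHat G (m + 1) h := by rw [Finset.card_insert_of_notMem hx, hA]

lemma nuHat_mono_both {m : ℕ} (h : ℕ) (hm : m + 1 ≤ Fintype.card G) :
    nuHat G m h ≤ nuHat G (m + 1) (h + 1) := by
  obtain ⟨A, hA, hA'⟩ := exists_attain (G := G) h (Nat.le_of_succ_le hm)
  obtain ⟨x, hx⟩ := exists_notMem (A := A) (by omega)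
  rw [← hA']
  have h1 : (rSum A h).image (fun y => x + y) ⊆ rSum (insert x A) (h + 1) := by
    intro z hz
    obtain ⟨y, hy, rfl⟩ := Finset.mem_image.1 hz
    obtain ⟨I, hI, rfl⟩ := Finset.mem_image.1 hy
    obtain ⟨hI1, hI2⟩ := Finset.mem_powersetCard.1 hI
    have hxI : x ∉ I := fun h' => hx (hI1 h')
    refine Finset.mem_image.2 ⟨insert x I, Finset.mem_powersetCard.2
      ⟨Finset.insert_subset_insert x hI1, ?_⟩, ?_⟩
    · rw [Finset.card_insert_of_notMem hxI, hI2]
    · exact Finset.sum_insert hxI
  calc (rSum A h).card = ((rSum A h).image (fun y => x + y)).card :=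
        (Finset.card_image_of_injective _ (add_right_injective x)).symm
    _ ≤ (rSum (insert x A) (h + 1)).card := Finset.card_le_card h1
    _ ≤ nuHat G (insert x A).card (h + 1) := card_rSum_le _ _
    _ = nuHat G (m + 1) (h + 1) := by rw [Finset.card_insert_of_notMem hx, hA]

lemma nuHat_mono {m h m' h' : ℕ} (hh : h' ≤ h) (hmh : h ≤ m) (hk : m' - h' ≤ m - h) (hm' : h' ≤ m')
    (hm : m ≤ Fintype.card G) : nuHat G m' h' ≤ nuHat G m h := by
  -- first raise both by `h - h'`, then only the first argument
  have key1 : ∀ t : ℕ, m' + t ≤ Fintype.card G → nuHat G m' h' ≤ nuHat G (m' + t) (h' + t) := by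
    intro t
    induction t with
    | zero => intro _; exact le_rfl
    | succ t ih =>
      intro ht
      exact (ih (by omega)).trans (nuHat_mono_both _ ht)
  have key2 : ∀ (a t : ℕ), a + t ≤ Fintype.card G → nuHat G a h ≤ nuHat G (a + t) h := by
    intro a t
    induction t with
    | zero => intro _; exact le_rfl
    | succ t ih =>
      intro ht
      exact (ih (by omega)).trans (nuHat_mono_left _ ht)
  have h1 := key1 (h - h') (by omega)
  rw [Nat.add_sub_cancel' hh] at h1
  have h2 := key2 (m' + (h - h')) (m - (m' + (h - h'))) (by omega)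
  rw [Nat.add_sub_cancel' (by omega)] at h2
  exact h1.trans h2

end general

end Pool.Agent.MP_5949a1
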