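import Pool.Agent.Lib.MP_5949a1_co_h64.Exact

/-!
# Bose–Chowla sets
-/

set_option autoImplicit false

namespace Pool.Agent.MP_5949a1

open Finset Polynomial IntermediateField

/-- the product `∏ (X + a)` -/
noncomputable def prodPoly {K : Type*} [Field K] (I : Finset K) : K[X] :=
  ∏ a ∈ I, (X + C a)

lemma prodPoly_monic {K : Type*} [Field K] (I : Finset K) : (prodPoly I).Monic :=
  monic_prod_of_monic _ _ fun a _ => monic_X_add_C a

lemma prodPoly_natDegree {K : Type*} [Field K] (I : Finset K) : (prodPoly I).natDegree = I.card := by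
  rw [prodPoly, natDegree_prod_of_monic _ _ fun a _ => monic_X_add_C a]
  simp

lemma prodPoly_injective {K : Type*} [Field K] [DecidableEq K] {I J : Finset K}
    (h : prodPoly I = prodPoly J) : I = J := by
  have key : ∀ {I J : Finset K}, prodPoly I = prodPoly J → I ⊆ J := by
    intro I J h a ha
    have h1 : (prodPoly I).eval (-a) = 0 := by
      rw [prodPoly, eval_prod]
      exact Finset.prod_eq_zero ha (by simp)
    rw [h, prodPoly, eval_prod, Finset.prod_eq_zero_iff] at h1
    obtain ⟨b, hb, hb'⟩ := h1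
    simp only [eval_add, eval_X, eval_C] at hb'
    have : b = a := by
      have := neg_add_eq_zero.1 hb'
      exact this.symm
    rwa [← this]
  exact Finset.Subset.antisymm (key h) (key h.symm)

lemma prodPoly_aeval_injective {K F : Type*} [Field K] [Field F] [Algebra K F] [DecidableEq K]
    [FiniteDimensional K F] {θ : F} {h : ℕ} (hθ : (minpoly K θ).natDegree = h) {I J : Finset K}
    (hI : I.card = h) (hJ : J.card = h) (heq : aeval θ (prodPoly I) = aeval θ (prodPoly J)) :
    I = J := by
  apply prodPoly_injective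
  by_contra hne
  have h1 : prodPoly I - prodPoly J ≠ 0 := sub_ne_zero.2 hne
  have h2 : aeval θ (prodPoly I - prodPoly J) = 0 := by rw [map_sub, heq, sub_self]
  have h3 : (minpoly K θ).degree ≤ (prodPoly I - prodPoly J).degree :=
    minpoly.degree_le_of_ne_zero K θ h1 h2
  have h4 : (prodPoly I - prodPoly J).degree < (prodPoly I).degree := by
    refine degree_sub_lt_left ?_ (prodPoly_monic I).ne_zero ?_
    · rw [degree_eq_natDegree (prodPoly_monic I).ne_zero, degree_eq_natDegree (prodPoly_monic J).ne_zero,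
        prodPoly_natDegree, prodPoly_natDegree, hI, hJ]
    · rw [(prodPoly_monic I).leadingCoeff, (prodPoly_monic J).leadingCoeff]
  rw [degree_eq_natDegree (prodPoly_monic I).ne_zero, prodPoly_natDegree, hI] at h4
  have h5 : (minpoly K θ).degree = (h : ℕ) := by
    rw [degree_eq_natDegree (minpoly.ne_zero (IsIntegral.of_finite K θ)), hθ]
  rw [h5] at h3
  exact absurd (h3.trans_lt h4) (lt_irrefl _)

/-- Bose–Chowla: integers `e a < q ^ h`, `a` in the prime field, with different `h`-fold sums -/
lemma bose_chowla (q h : ℕ) [Fact q.Prime] (hh : 2 ≤ h) : ∃ e : ZMod q → ℕ, Function.Injective e ∧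
    (∀ a, e a < q ^ h) ∧ ∀ I J : Finset (ZMod q), I.card = h → J.card = h →
      ∑ a ∈ I, e a = ∑ a ∈ J, e a → I = J := by
  classical
  have hh0 : h ≠ 0 := by omega
  let F := GaloisField q h
  obtain ⟨θ, hθ⟩ := Field.exists_primitive_element (ZMod q) F
  have hdeg : (minpoly (ZMod q) θ).natDegree = h := by
    rw [(Field.primitive_element_iff_minpoly_natDegree_eq (ZMod q) θ).1 hθ]
    exact GaloisField.finrank q hh0
  have hne : ∀ a : ZMod q, θ + algebraMap (ZMod q) F a ≠ 0 := by
    intro a ha
    have h1 : aeval θ (X + C a : (ZMod q)[X]) = 0 := by simpa using ha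
    have h2 : (minpoly (ZMod q) θ).natDegree ≤ (X + C a : (ZMod q)[X]).natDegree :=
      natDegree_le_natDegree (minpoly.degree_le_of_ne_zero _ θ (monic_X_add_C a).ne_zero h1)
    rw [hdeg, natDegree_X_add_C] at h2
    omega
  obtain ⟨g, hg⟩ := IsCyclic.exists_generator (α := Fˣ)
  have hlog : ∀ u : Fˣ, ∃ k, k < q ^ h ∧ g ^ k = u := by
    intro u
    have h1 := hg u
    rw [← mem_powers_iff_mem_zpowers, mem_powers_iff_mem_range_orderOf] at h1
    obtain ⟨k, hk, hk'⟩ := Finset.mem_image.1 h1
    refine ⟨k, (Finset.mem_range.1 hk).trans_le ?_, hk'⟩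
    have h2 : Nat.card F = q ^ h := GaloisField.card q h hh0
    calc orderOf g ≤ Nat.card Fˣ := orderOf_le_card
      _ ≤ Nat.card F := Nat.card_le_card_of_injective _ Units.val_injective
      _ = q ^ h := h2
  choose e he1 he2 using fun a : ZMod q => hlog (Units.mk0 _ (hne a))
  have hval : ∀ a, (g : F) ^ e a = θ + algebraMap (ZMod q) F a := by
    intro a
    have := congrArg Units.val (he2 a)
    simpa using this
  have hprod : ∀ I : Finset (ZMod q), (g : F) ^ (∑ a ∈ I, e a) = aeval θ (prodPoly I) := by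
    intro I
    rw [← Finset.prod_pow_eq_pow_sum, prodPoly, map_prod]
    refine Finset.prod_congr rfl fun a _ => ?_
    rw [hval]; simp
  refine ⟨e, ?_, he1, ?_⟩
  · intro a b hab
    have h1 := (hval a).symm.trans ((congrArg (fun k => (g : F) ^ k) hab).trans (hval b))
    exact (algebraMap (ZMod q) F).injective (add_left_cancel h1)
  · intro I J hI hJ hIJ
    refine prodPoly_aeval_injective hdeg hI hJ ?_
    rw [← hprod, ← hprod, hIJ]

theorem exact_pow (n m h : ℕ) [NeZero n] (hh : 1 ≤ h) (hm : h ≤ m) (hn : h * (2 * m) ^ h ≤ n) :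
    nuHat (ZMod n) m h = m.choose h := by
  classical
  refine le_antisymm (nuHat_le_choose m h) ?_
  have hm1 : 1 ≤ m := hh.trans hm
  rcases hh.eq_or_lt with rfl | hh2
  · -- `h = 1`
    have hn' : 2 * m ≤ n := by simpa using hn
    have h1 := all_distinct n 1 (Finset.range m) (fun i => i) ?_ ?_ ?_ ?_
    · rwa [Finset.card_range] at h1
    · intro x hx
      have := Finset.mem_range.1 hx
      omega
    · intro x _ y _ hxy; exact hxy
    · intro I hI hI1
      obtain ⟨x, rfl⟩ := Finset.card_eq_one.1 hI1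
      have := Finset.mem_range.1 (hI (Finset.mem_singleton_self x))
      rw [Finset.sum_singleton]
      omega
    · intro I _ J _ hI1 hJ1 hIJ
      obtain ⟨x, rfl⟩ := Finset.card_eq_one.1 hI1
      obtain ⟨y, rfl⟩ := Finset.card_eq_one.1 hJ1
      rw [Finset.sum_singleton, Finset.sum_singleton] at hIJ
      rw [hIJ]
  obtain ⟨q, hq, hq1, hq2⟩ := Nat.exists_prime_lt_and_le_two_mul m (by omega)
  haveI : Fact q.Prime := ⟨hq⟩
  obtain ⟨e, he1, he2, he3⟩ := bose_chowla q h hh2
  obtain ⟨s, hs, hsc⟩ := Finset.exists_subset_card_eq (s := (Finset.univ : Finset (ZMod q))) (n := m)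
    (by rw [Finset.card_univ, ZMod.card]; exact hq1.le)
  have hqh : q ^ h ≤ (2 * m) ^ h := Nat.pow_le_pow_left hq2 h
  have hlt : ∀ I : Finset (ZMod q), I.card = h → ∑ a ∈ I, e a < n := by
    intro I hI
    have hne : I.Nonempty := Finset.card_pos.1 (by omega)
    calc ∑ a ∈ I, e a < ∑ a ∈ I, q ^ h := Finset.sum_lt_sum_of_nonempty hne fun a _ => he2 a
      _ = h * q ^ h := by rw [Finset.sum_const, hI, smul_eq_mul]
      _ ≤ h * (2 * m) ^ h := Nat.mul_le_mul_left _ hqh
      _ ≤ n := hn
  have h1 := all_distinct n h s e ?_ he1.injOn ?_ ?_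
  · rwa [hsc] at h1
  · intro x _
    calc e x < q ^ h := he2 x
      _ ≤ (2 * m) ^ h := hqh
      _ = 1 * (2 * m) ^ h := (one_mul _).symm
      _ ≤ h * (2 * m) ^ h := Nat.mul_le_mul_right _ hh
      _ ≤ n := hn
  · intro I _ hI; exact hlt I hI
  · intro I _ J _ hI hJ hIJ; exact he3 I J hI hJ hIJ

end Pool.Agent.MP_5949a1
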