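import Pool.Agent.Lib.MP_5949a1_co_h64.Avg

/-!
# The trivial bound is sharp up to a factor two
-/

set_option autoImplicit false
set_option linter.unusedSectionVars false

namespace Pool.Agent.MP_5949a1

open Finset

lemma near_le_choose {m h : ℕ} (hh : h ≤ m) : h * (m - h) + 1 ≤ m.choose h := by
  classical
  have hPc : ((Finset.univ : Finset (Fin m)).powersetCard h).card = m.choose h := by
    rw [Finset.card_powersetCard, Finset.card_univ, Fintype.card_fin]
  obtain ⟨I, hI⟩ : ((Finset.univ : Finset (Fin m)).powersetCard h).Nonempty :=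
    Finset.card_pos.1 (hPc ▸ Nat.choose_pos hh)
  refine (near_card I (Finset.mem_powersetCard.1 hI).2).trans ?_
  rw [← hPc]
  exact Finset.card_le_card (Finset.filter_subset _ _)

variable {G : Type*} [AddCommGroup G] [Fintype G] [DecidableEq G]

/-- the main lower bound, under an inequality between `n`, `m`, `h` -/
theorem lower_of_cond {m h : ℕ} (hh : h ≤ m) (hm1 : 1 ≤ m) (hm : m ≤ Fintype.card G)
    (hcond : (m - 1) * (m.choose h - 1) ≤ Fintype.card G * (h * (m - h))) :
    Fintype.card G * m.choose h ≤ nuHat G m h * (Fintype.card G + m.choose h - 1) := by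
  have hav := averaging (G := G) hh hm1 hm
  have hnear := near_le_choose hh
  set n := Fintype.card G
  set C := m.choose h
  set k := h * (m - h)
  obtain ⟨N, hN⟩ := Nat.exists_eq_add_of_le hm
  obtain ⟨M, hM⟩ := Nat.exists_eq_add_of_le hm1
  obtain ⟨c, hc⟩ := Nat.exists_eq_add_of_le hnear
  have e1 : n - m = N := by omega
  have e2 : C - k = c + 1 := by omega
  have e3 : n + C - 1 = N + m + (k + c) := by omega
  have e4 : m - 1 = M := by omega
  have e5 : C - 1 = k + c := by omega
  rw [e1, e2] at hav
  rw [e4, e5] at hcond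
  rw [e3]
  have h1 : M * c ≤ (N + 1) * k := by
    have : M * (k + c) ≤ (m + N) * k := by rw [← hN]; exact hcond
    nlinarith
  have h2 : (N + m) * (N + c + 1) ≤ (N + 1) * (N + m + (k + c)) := by
    subst hM
    nlinarith
  have h3 : (N + 1) * (n * C) ≤ (N + 1) * (nuHat G m h * (N + m + (k + c))) := by
    calc (N + 1) * (n * C) = (N + m) * (C * (N + 1)) := by rw [hN]; ring
      _ ≤ (N + m) * (nuHat G m h * (N + (c + 1))) := Nat.mul_le_mul_left _ hav
      _ = nuHat G m h * ((N + m) * (N + c + 1)) := by ring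
      _ ≤ nuHat G m h * ((N + 1) * (N + m + (k + c))) := Nat.mul_le_mul_left _ h2
      _ = _ := by ring
  exact Nat.le_of_mul_le_mul_left h3 (Nat.succ_pos N)

/-- if `C(m,h) ≤ n` then `ν^(G,m,h) ≥ n C / (n + C - 1)` -/
theorem lower_small {m h : ℕ} (hh1 : 1 ≤ h) (hh : h ≤ m) (hm : m ≤ Fintype.card G)
    (hC : m.choose h ≤ Fintype.card G) :
    Fintype.card G * m.choose h ≤ nuHat G m h * (Fintype.card G + m.choose h - 1) := by
  have hm1 : 1 ≤ m := hh1.trans hh
  refine lower_of_cond hh hm1 hm ?_
  rcases hh.eq_or_lt with rfl | hlt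
  · simp
  · have h1 : m - 1 ≤ h * (m - h) := by
      obtain ⟨k, hk⟩ := Nat.exists_eq_add_of_lt hlt
      subst hk
      have : h + k + 1 - h = k + 1 := by omega
      rw [this]
      have : h + k + 1 - 1 = h + k := by omega
      rw [this]
      nlinarith
    calc (m - 1) * (m.choose h - 1) ≤ (h * (m - h)) * Fintype.card G :=
          Nat.mul_le_mul h1 ((Nat.sub_le _ _).trans hC)
      _ = _ := mul_comm _ _

/-- the inequality needed when `C(m,h)` is just above `n`; `m = h + k` -/
lemma cond_aux {h k n : ℕ} (hh : 1 ≤ h) (hk : 1 ≤ k) (h1 : (h + k - 1).choose h < n)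
    (h2 : (h + k - 1).choose (h - 1) < n) :
    (h + k - 1) * ((h + k).choose h - 1) ≤ n * (h * k) := by
  obtain ⟨a, rfl⟩ := Nat.exists_eq_add_of_le' hh
  obtain ⟨b, rfl⟩ := Nat.exists_eq_add_of_le' hk
  -- `h = a + 1`, `k = b + 1`
  have e1 : a + 1 + (b + 1) - 1 = a + b + 1 := by omega
  have e2 : a + 1 + (b + 1) = a + b + 1 + 1 := by omega
  rw [e1] at h1 h2
  rw [e1, e2]
  have e3 : a + 1 - 1 = a := by omega
  rw [e3] at h2
  have hP : (a + b + 1 + 1).choose (a + 1) = (a + b + 1).choose a + (a + b + 1).choose (a + 1) :=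
    Nat.choose_succ_succ _ _
  -- `(a+1) C(a+b+2,a+1) = (a+b+2) C(a+b+1,a)`
  have hQ : (a + b + 1 + 1) * (a + b + 1).choose a = (a + b + 1 + 1).choose (a + 1) * (a + 1) :=
    Nat.add_one_mul_choose_eq _ _
  have hR : (b + 1) * (a + b + 1 + 1).choose (a + 1) = (a + b + 1 + 1) * (a + b + 1).choose (a + 1) := by
    have h3 : (a + b + 1 + 1) * (a + b + 1).choose a + (b + 1) * (a + b + 1 + 1).choose (a + 1) =
        (a + b + 1 + 1) * (a + b + 1).choose a +
          (a + b + 1 + 1) * (a + b + 1).choose (a + 1) := by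
      rw [← mul_add, ← hP, hQ]; ring
    exact Nat.add_left_cancel h3
  set C := (a + b + 1 + 1).choose (a + 1) with hC
  set X := (a + b + 1).choose a with hX
  set Y := (a + b + 1).choose (a + 1) with hY
  have hCpos : 0 < C := Nat.choose_pos (by omega)
  obtain ⟨c, hc⟩ := Nat.exists_eq_add_of_le' (Nat.succ_le_of_lt hCpos)
  have hc1 : C - 1 = c := by omega
  rw [hc1]
  rcases Nat.eq_zero_or_pos a with ha | ha
  · -- `h = 1`
    subst ha
    have hX1 : X = 1 := by rw [hX]; simp
    have : C = 0 + b + 1 + 1 := by rw [hX1] at hQ; omega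
    have hcb : c = b + 1 := by omega
    have hYn : b + 1 < n := by omega
    rw [hcb]
    nlinarith
  rcases Nat.eq_zero_or_pos b with hb | hb
  · subst hb
    have hY1 : Y = 1 := by rw [hY]; simp
    have : C = a + 0 + 1 + 1 := by rw [hY1] at hR; omega
    have hcb : c = a + 1 := by omega
    have hYn : a + 1 < n := by omega
    rw [hcb]
    nlinarith
  rcases Nat.lt_or_ge a 2 with ha2 | ha2
  · have ha1 : a = 1 := by omega
    subst ha1
    have hX1 : X = b + 2 := by rw [hX]; simp; omega
    rw [hX1] at hQ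
    have h2C : 2 * C = (b + 3) * (b + 2) := by nlinarith
    have h2Y : 2 * Y = (b + 1) * (b + 2) := by
      have h3 : (b + 3) * (2 * Y) = (b + 3) * ((b + 1) * (b + 2)) := by
        calc (b + 3) * (2 * Y) = 2 * ((1 + b + 1 + 1) * Y) := by ring
          _ = 2 * ((b + 1) * C) := by rw [hR]
          _ = (b + 1) * (2 * C) := by ring
          _ = _ := by rw [h2C]; ring
      exact Nat.eq_of_mul_eq_mul_left (by omega) h3
    have h2c : 2 * c = (b + 1) * (b + 4) := by nlinarith
    have h4 : (b + 2) * (b + 4) ≤ 4 * n := by nlinarith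
    have h5 : 2 * ((1 + b + 1) * c) ≤ 2 * (n * ((1 + 1) * (b + 1))) := by
      calc 2 * ((1 + b + 1) * c) = (b + 2) * (2 * c) := by ring
        _ = (b + 1) * ((b + 2) * (b + 4)) := by rw [h2c]; ring
        _ ≤ (b + 1) * (4 * n) := Nat.mul_le_mul_left _ h4
        _ = _ := by ring
    exact Nat.le_of_mul_le_mul_left h5 (by norm_num)
  rcases Nat.lt_or_ge b 2 with hb2 | hb2
  · have hb1 : b = 1 := by omega
    subst hb1
    have hY1 : Y = a + 2 := by
      rw [hY]
      have : a + 1 + 1 = (a + 1) + 1 := rfl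
      rw [Nat.choose_succ_self_right]
    rw [hY1] at hR
    have h2C : 2 * C = (a + 3) * (a + 2) := by nlinarith
    have h2X : 2 * X = (a + 1) * (a + 2) := by
      have h3 : (a + 3) * (2 * X) = (a + 3) * ((a + 1) * (a + 2)) := by
        calc (a + 3) * (2 * X) = 2 * ((a + 1 + 1 + 1) * X) := by ring
          _ = 2 * (C * (a + 1)) := by rw [hQ]
          _ = (a + 1) * (2 * C) := by ring
          _ = _ := by rw [h2C]; ring
      exact Nat.eq_of_mul_eq_mul_left (by omega) h3
    have h2c : 2 * c = (a + 1) * (a + 4) := by nlinarith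
    have h4 : (a + 2) * (a + 4) ≤ 4 * n := by nlinarith
    have h5 : 2 * ((a + 1 + 1) * c) ≤ 2 * (n * ((a + 1) * (1 + 1))) := by
      calc 2 * ((a + 1 + 1) * c) = (a + 2) * (2 * c) := by ring
        _ = (a + 1) * ((a + 2) * (a + 4)) := by rw [h2c]; ring
        _ ≤ (a + 1) * (4 * n) := Nat.mul_le_mul_left _ h4
        _ = _ := by ring
    exact Nat.le_of_mul_le_mul_left h5 (by norm_num)
  by_cases hab : a = 2 ∧ b = 2
  · obtain ⟨rfl, rfl⟩ := hab
    have hX1 : X = 10 := by rw [hX]; decide
    have hC1 : C = 20 := by rw [hC]; decide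
    have : c = 19 := by omega
    rw [this]; omega
  · have h6 : a + b + 1 ≤ a * b := by
      rcases Nat.lt_or_ge a 3 with h | h
      · have : a = 2 := by omega
        subst this
        omega
      · nlinarith
    have h7 : 2 * (a + b + 1) ≤ (a + 1) * (b + 1) := by nlinarith
    have h8 : c + 3 ≤ 2 * n := by omega
    have h9 : 2 * ((a + b + 1) * c) ≤ 2 * (n * ((a + 1) * (b + 1))) := by
      calc 2 * ((a + b + 1) * c) = (2 * (a + b + 1)) * c := by ring
        _ ≤ ((a + 1) * (b + 1)) * (2 * n) := Nat.mul_le_mul h7 (by omega)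
        _ = _ := by ring
    exact Nat.le_of_mul_le_mul_left h9 (by norm_num)

/-- **Half of the trivial bound is always attained.** -/
theorem half {m : ℕ} : ∀ h : ℕ, 1 ≤ h → h ≤ m → m ≤ Fintype.card G →
    min (Fintype.card G) (m.choose h) < 2 * nuHat G m h := by
  set n := Fintype.card G with hn
  have fin : ∀ {m h : ℕ}, 1 ≤ h → h ≤ m → m ≤ n → n * m.choose h ≤
      nuHat G m h * (n + m.choose h - 1) → n ≤ m.choose h →
      min n (m.choose h) < 2 * nuHat G m h := by
    intro m h hh hm hmn h1 h2
    rw [min_eq_left h2]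
    have hnpos : 0 < n := by omega
    set C := m.choose h
    by_contra hcon
    push Not at hcon
    have h3 : 2 * (n * C) ≤ n * (n + C - 1) := by
      calc 2 * (n * C) ≤ 2 * (nuHat G m h * (n + C - 1)) := Nat.mul_le_mul_left _ h1
        _ = (2 * nuHat G m h) * (n + C - 1) := by ring
        _ ≤ n * (n + C - 1) := Nat.mul_le_mul_right _ hcon
    have h4 : n * (2 * C) ≤ n * (n + C - 1) := by
      calc n * (2 * C) = 2 * (n * C) := by ring
        _ ≤ _ := h3
    have h5 := Nat.le_of_mul_le_mul_left h4 hnpos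
    omega
  induction m with
  | zero => intro h h1 h2; omega
  | succ m ih =>
    intro h hh hm hmn
    rcases Nat.lt_or_ge n ((m + 1).choose h) with hC | hC
    · -- `C > n`
      have hlt : h < m + 1 := by
        rcases hm.eq_or_lt with h1 | h1
        · subst h1; rw [Nat.choose_self] at hC; omega
        · exact h1
      by_cases h1 : n ≤ m.choose h
      · have h2 := ih h hh (by omega) (by omega)
        rw [min_eq_left h1] at h2
        rw [min_eq_left hC.le]
        exact h2.trans_le (Nat.mul_le_mul_left _ (nuHat_mono_left h hmn))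
      by_cases h2 : n ≤ m.choose (h - 1)
      · have hh2 : 1 ≤ h - 1 := by
          by_contra hcon
          have : h - 1 = 0 := by omega
          rw [this, Nat.choose_zero_right] at h2
          -- n ≤ 1, `m + 1 ≤ 1`
          have : m = 0 := by omega
          subst this
          omega
        have h3 := ih (h - 1) hh2 (by omega) (by omega)
        rw [min_eq_left h2] at h3
        rw [min_eq_left hC.le]
        have h4 := nuHat_mono_both (G := G) (m := m) (h - 1) hmn
        rw [Nat.sub_add_cancel hh] at h4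
        exact h3.trans_le (Nat.mul_le_mul_left _ h4)
      push Not at h1 h2
      refine fin hh hm hmn (lower_of_cond hm (by omega) hmn ?_) hC.le
      obtain ⟨k, hk⟩ := Nat.exists_eq_add_of_lt hlt
      have h3 : m = h + k := by omega
      have h4 : m + 1 = h + (k + 1) := by omega
      have h5 : h + (k + 1) - 1 = m := by omega
      have h6 := cond_aux (h := h) (k := k + 1) (n := n) hh (by omega) (by rw [h5]; exact h1)
        (by rw [h5]; exact h2)
      rw [← h4] at h6
      have h7 : m + 1 - h = k + 1 := by omega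
      rw [h7]
      exact h6
    · -- `C ≤ n`
      rw [min_eq_right hC]
      have h1 := lower_small (G := G) hh hm hmn hC
      rw [← hn] at h1
      set C := (m + 1).choose h
      have hCpos : 0 < C := Nat.choose_pos hm
      by_contra hcon
      push Not at hcon
      have h3 : C * (2 * n) ≤ C * (n + C - 1) := by
        calc C * (2 * n) = 2 * (n * C) := by ring
          _ ≤ 2 * (nuHat G (m + 1) h * (n + C - 1)) := Nat.mul_le_mul_left _ h1
          _ = (2 * nuHat G (m + 1) h) * (n + C - 1) := by ring
          _ ≤ C * (n + C - 1) := Nat.mul_le_mul_right _ hcon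
      have h5 := Nat.le_of_mul_le_mul_left h3 hCpos
      omega

end Pool.Agent.MP_5949a1
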