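import Pool.Agent.Lib.MP_5949a1_co_h64.Basic

/-!
# The trivial bound is not attained in a window above `C(m,h)`
-/

set_option autoImplicit false
set_option linter.unusedSectionVars false

namespace Pool.Agent.MP_5949a1

open Finset

section
variable {G : Type*} [AddCommGroup G] [DecidableEq G] {A : Finset G} {h : ℕ}

/-- all `j`-fold sums of distinct elements are different -/
def SumsInj (A : Finset G) (j : ℕ) : Prop :=
  ∀ I ⊆ A, ∀ J ⊆ A, I.card = j → J.card = j → ∑ a ∈ I, a = ∑ a ∈ J, a → I = J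

lemma sumsInj_of_card (hA : A.card.choose h ≤ (rSum A h).card) : SumsInj A h := by
  have h1 : (rSum A h).card = (A.powersetCard h).card := by
    refine le_antisymm Finset.card_image_le ?_
    rw [Finset.card_powersetCard]; exact hA
  have h2 := Finset.card_image_iff.1 h1
  intro I hI J hJ hIc hJc hIJ
  exact h2 (Finset.mem_coe.2 (Finset.mem_powersetCard.2 ⟨hI, hIc⟩))
    (Finset.mem_coe.2 (Finset.mem_powersetCard.2 ⟨hJ, hJc⟩)) hIJ

lemma SumsInj.mono (hS : SumsInj A h) {j : ℕ} (hj : j ≤ h) (hm : 2 * h ≤ A.card) : SumsInj A j := by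
  intro I hI J hJ hIc hJc hIJ
  have h1 : h - j ≤ (A \ (I ∪ J)).card := by
    have h2 : (I ∪ J).card ≤ 2 * j := (Finset.card_union_le I J).trans (by omega)
    have h3 := Finset.le_card_sdiff (I ∪ J) A
    omega
  obtain ⟨Z, hZ, hZc⟩ := Finset.exists_subset_card_eq h1
  have hZA : Z ⊆ A := hZ.trans Finset.sdiff_subset
  have hd : ∀ x ∈ Z, x ∉ I ∧ x ∉ J := by
    intro x hx
    have := (Finset.mem_sdiff.1 (hZ hx)).2
    rw [Finset.mem_union] at this
    push Not at this
    exact this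
  have hdI : Disjoint I Z := Finset.disjoint_right.2 fun x hx => (hd x hx).1
  have hdJ : Disjoint J Z := Finset.disjoint_right.2 fun x hx => (hd x hx).2
  have h4 : I ∪ Z = J ∪ Z := by
    refine hS _ (Finset.union_subset hI hZA) _ (Finset.union_subset hJ hZA) ?_ ?_ ?_
    · rw [Finset.card_union_of_disjoint hdI, hIc, hZc]; omega
    · rw [Finset.card_union_of_disjoint hdJ, hJc, hZc]; omega
    · rw [Finset.sum_union hdI, Finset.sum_union hdJ, hIJ]
  have key : ∀ {I J : Finset G}, Disjoint I Z → I ∪ Z = J ∪ Z → I ⊆ J := by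
    intro I J hd h5 x hx
    have : x ∈ J ∪ Z := h5 ▸ Finset.mem_union_left _ hx
    rcases Finset.mem_union.1 this with h | h
    · exact h
    · exact absurd h (Finset.disjoint_left.1 hd hx)
  exact Finset.Subset.antisymm (key hdI h4) (key hdJ h4.symm)

/-- disjoint pairs of subsets of given sizes -/
def prs (A : Finset G) (p q : ℕ) : Finset (Finset G × Finset G) :=
  (A.powersetCard p ×ˢ A.powersetCard q).filter fun s => Disjoint s.1 s.2

lemma mem_prs {p q : ℕ} {s : Finset G × Finset G} : s ∈ prs A p q ↔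
    s.1 ⊆ A ∧ s.1.card = p ∧ s.2 ⊆ A ∧ s.2.card = q ∧ Disjoint s.1 s.2 := by
  rw [prs, Finset.mem_filter, Finset.mem_product, Finset.mem_powersetCard, Finset.mem_powersetCard]
  tauto

/-- the difference of the sums -/
def dif (s : Finset G × Finset G) : G := ∑ a ∈ s.1, a - ∑ a ∈ s.2, a

/-- different pairs with the same difference cross -/
lemma crossing {p q : ℕ} (hS : SumsInj A (p + q)) {s t : Finset G × Finset G} (hs : s ∈ prs A p q)
    (ht : t ∈ prs A p q) (hst : dif s = dif t) (hne : s ≠ t) :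
    (s.1 ∩ t.2).Nonempty ∨ (s.2 ∩ t.1).Nonempty := by
  by_contra hcon
  push Not at hcon
  obtain ⟨h1, h2⟩ := hcon
  obtain ⟨a1, a2, a3, a4, a5⟩ := mem_prs.1 hs
  obtain ⟨b1, b2, b3, b4, b5⟩ := mem_prs.1 ht
  have d1 : Disjoint s.1 t.2 := Finset.disjoint_iff_inter_eq_empty.2 h1
  have d2 : Disjoint t.1 s.2 := (Finset.disjoint_iff_inter_eq_empty.2 h2).symm
  have h3 : s.1 ∪ t.2 = t.1 ∪ s.2 := by
    refine hS _ (Finset.union_subset a1 b3) _ (Finset.union_subset b1 a3) ?_ ?_ ?_
    · rw [Finset.card_union_of_disjoint d1, a2, b4]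
    · rw [Finset.card_union_of_disjoint d2, b2, a4]
    · rw [Finset.sum_union d1, Finset.sum_union d2]
      have : ∑ a ∈ s.1, a - ∑ a ∈ s.2, a = ∑ a ∈ t.1, a - ∑ a ∈ t.2, a := hst
      rw [sub_eq_sub_iff_add_eq_add] at this
      exact this
  have h4 : s.1 ⊆ t.1 := by
    intro x hx
    have : x ∈ t.1 ∪ s.2 := h3 ▸ Finset.mem_union_left _ hx
    rcases Finset.mem_union.1 this with h | h
    · exact h
    · exact absurd h (Finset.disjoint_left.1 a5 hx)
  have h5 : t.2 ⊆ s.2 := by
    intro x hx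
    have : x ∈ t.1 ∪ s.2 := h3 ▸ Finset.mem_union_right _ hx
    rcases Finset.mem_union.1 this with h | h
    · exact absurd hx (Finset.disjoint_left.1 b5 h)
    · exact h
  apply hne
  have e1 : s.1 = t.1 := Finset.eq_of_subset_of_card_le h4 (by rw [a2, b2])
  have e2 : t.2 = s.2 := Finset.eq_of_subset_of_card_le h5 (by rw [a4, b4])
  exact Prod.ext e1 e2.symm

/-- at most `2^(p+q)` pairs have a given difference -/
lemma card_fiber {p q : ℕ} (hS : SumsInj A (p + q)) (v : G) :
    ((prs A p q).filter fun s => dif s = v).card ≤ 2 ^ (p + q) := by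
  set Fm := (prs A p q).filter fun s => dif s = v with hF
  have h1 : ∀ s ∈ Fm, (Finset.Icc s.1 (A \ s.2)).card = 2 ^ (A.card - (p + q)) := by
    intro s hs
    rw [hF, Finset.mem_filter, mem_prs] at hs
    obtain ⟨⟨a1, a2, a3, a4, a5⟩, -⟩ := hs
    rw [Finset.card_Icc_finset (Finset.subset_sdiff.2 ⟨a1, a5⟩), Finset.card_sdiff_of_subset a3, a2, a4]
    congr 1
    omega
  have h2 : Set.PairwiseDisjoint (Fm : Set (Finset G × Finset G))
      (fun s => Finset.Icc s.1 (A \ s.2)) := by
    intro s hs t ht hne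
    rw [Finset.mem_coe, hF, Finset.mem_filter] at hs ht
    have h3 := crossing hS hs.1 ht.1 (hs.2.trans ht.2.symm) hne
    simp only [Function.onFun]
    rw [Finset.disjoint_left]
    intro S hSs hSt
    rw [Finset.mem_Icc] at hSs hSt
    rcases h3 with ⟨x, hx⟩ | ⟨x, hx⟩
    · rw [Finset.mem_inter] at hx
      have := hSt.2 (hSs.1 hx.1)
      exact (Finset.mem_sdiff.1 this).2 hx.2
    · rw [Finset.mem_inter] at hx
      have := hSs.2 (hSt.1 hx.2)
      exact (Finset.mem_sdiff.1 this).2 hx.1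
  have h3 : (Fm.biUnion fun s => Finset.Icc s.1 (A \ s.2)).card ≤ 2 ^ A.card := by
    rw [← Finset.card_powerset]
    refine Finset.card_le_card fun S hS' => ?_
    obtain ⟨s, -, hs⟩ := Finset.mem_biUnion.1 hS'
    rw [Finset.mem_Icc] at hs
    exact Finset.mem_powerset.2 (hs.2.trans Finset.sdiff_subset)
  rw [Finset.card_biUnion h2, Finset.sum_congr rfl h1, Finset.sum_const, smul_eq_mul] at h3
  rcases Fm.eq_empty_or_nonempty with he | ⟨s, hs⟩
  · rw [he]; simp
  · have hpq : p + q ≤ A.card := by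
      rw [hF, Finset.mem_filter, mem_prs] at hs
      obtain ⟨⟨a1, a2, a3, a4, a5⟩, -⟩ := hs
      rw [← a2, ← a4, ← Finset.card_union_of_disjoint a5]
      exact Finset.card_le_card (Finset.union_subset a1 a3)
    have h4 : 2 ^ A.card = 2 ^ (p + q) * 2 ^ (A.card - (p + q)) := by
      rw [← pow_add]; congr 1; omega
    rw [h4] at h3
    exact Nat.le_of_mul_le_mul_right h3 (by positivity)

/-- a map with few coincidences has a large image -/
lemma card_le_image_add {α β : Type*} [DecidableEq α] [DecidableEq β] (f : α → β) (X : Finset α) :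
    X.card ≤ (X.image f).card + ((X ×ˢ X).filter fun p => p.1 ≠ p.2 ∧ f p.1 = f p.2).card := by
  induction X using Finset.induction_on with
  | empty => simp
  | insert x X hx ih =>
    rw [Finset.card_insert_of_notMem hx, Finset.image_insert]
    have hsub : ((X ×ˢ X).filter fun p => p.1 ≠ p.2 ∧ f p.1 = f p.2) ⊆
        ((insert x X ×ˢ insert x X).filter fun p => p.1 ≠ p.2 ∧ f p.1 = f p.2) :=
      Finset.filter_subset_filter _ (Finset.product_subset_product (Finset.subset_insert _ _)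
        (Finset.subset_insert _ _))
    by_cases hf : f x ∈ X.image f
    · rw [Finset.insert_eq_of_mem hf]
      obtain ⟨t, ht, htx⟩ := Finset.mem_image.1 hf
      have hlt : ((X ×ˢ X).filter fun p => p.1 ≠ p.2 ∧ f p.1 = f p.2).card <
          ((insert x X ×ˢ insert x X).filter fun p => p.1 ≠ p.2 ∧ f p.1 = f p.2).card := by
        refine Finset.card_lt_card ⟨hsub, fun h => ?_⟩
        have h1 : (x, t) ∈ ((insert x X ×ˢ insert x X).filter fun p => p.1 ≠ p.2 ∧ f p.1 = f p.2) := by
          rw [Finset.mem_filter, Finset.mem_product]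
          exact ⟨⟨Finset.mem_insert_self _ _, Finset.mem_insert_of_mem ht⟩,
            fun h => hx (by rw [show x = t from h]; exact ht), htx.symm⟩
        have h2 := h h1
        rw [Finset.mem_filter, Finset.mem_product] at h2
        exact hx h2.1.1
      omega
    · rw [Finset.card_insert_of_notMem hf]
      have := Finset.card_le_card hsub
      omega

lemma card_prs (A : Finset G) (k l : ℕ) :
    (prs A k l).card = (A.card).choose (k + l) * (k + l).choose k := by
  have h1 : (prs A k l).card = ∑ I ∈ A.powersetCard k, ((A \ I).powersetCard l).card := by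
    rw [prs, Finset.card_filter, Finset.sum_product]
    refine Finset.sum_congr rfl fun I hI => ?_
    rw [← Finset.card_filter]
    congr 1
    ext J
    rw [Finset.mem_filter, Finset.mem_powersetCard, Finset.mem_powersetCard, Finset.subset_sdiff]
    simp only
    constructor
    · rintro ⟨⟨h1, h2⟩, h3⟩; exact ⟨⟨h1, h3.symm⟩, h2⟩
    · rintro ⟨⟨h1, h3⟩, h2⟩; exact ⟨⟨h1, h2⟩, h3.symm⟩
  have h2 : ∀ I ∈ A.powersetCard k, ((A \ I).powersetCard l).card = (A.card - k).choose l := by
    intro I hI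
    rw [Finset.mem_powersetCard] at hI
    rw [Finset.card_powersetCard, Finset.card_sdiff_of_subset hI.1, hI.2]
  rw [h1, Finset.sum_congr rfl h2, Finset.sum_const, Finset.card_powersetCard, smul_eq_mul]
  rcases Nat.lt_or_ge A.card (k + l) with hlt | hge
  · rw [Nat.choose_eq_zero_of_lt hlt, zero_mul]
    rcases Nat.lt_or_ge A.card k with h | h
    · rw [Nat.choose_eq_zero_of_lt h, zero_mul]
    · rw [Nat.choose_eq_zero_of_lt (show A.card - k < l by omega), mul_zero]
  · have := Nat.choose_mul (n := A.card) (Nat.le_add_right k l)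
    rw [this, Nat.add_sub_cancel_left]

/-- coincidences in which an element of the first set of the first pair does not occur in the
second pair -/
def coA (A : Finset G) (k l : ℕ) : Finset ((Finset G × Finset G) × (Finset G × Finset G) × G) :=
  (prs A k l ×ˢ prs A k l ×ˢ A).filter fun z => dif z.1 = dif z.2.1 ∧
    ((z.1.1 ∩ z.2.1.2).Nonempty ∨ (z.1.2 ∩ z.2.1.1).Nonempty) ∧
    z.2.2 ∈ z.1.1 ∧ z.2.2 ∉ z.2.1.1 ∧ z.2.2 ∉ z.2.1.2

/-- the data of a coincidence -/
def dat (z : (Finset G × Finset G) × (Finset G × Finset G) × G) :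
    (Finset G × Finset G) × (Finset G × Finset G) :=
  ((z.1.1.erase z.2.2, z.1.2), (z.2.1.1 ∩ (z.1.1.erase z.2.2 ∪ z.1.2),
    z.2.1.2 ∩ (z.1.1.erase z.2.2 ∪ z.1.2)))

/-- the unknown sets -/
def unk (z : (Finset G × Finset G) × (Finset G × Finset G) × G) : Finset G × Finset G :=
  (z.2.1.1 \ (z.1.1.erase z.2.2 ∪ z.1.2), insert z.2.2 (z.2.1.2 \ (z.1.1.erase z.2.2 ∪ z.1.2)))

lemma mem_coA {k l : ℕ} {z : (Finset G × Finset G) × (Finset G × Finset G) × G} :
    z ∈ coA A k l ↔ (z.1 ∈ prs A k l ∧ z.2.1 ∈ prs A k l ∧ z.2.2 ∈ A) ∧ dif z.1 = dif z.2.1 ∧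
    ((z.1.1 ∩ z.2.1.2).Nonempty ∨ (z.1.2 ∩ z.2.1.1).Nonempty) ∧
    z.2.2 ∈ z.1.1 ∧ z.2.2 ∉ z.2.1.1 ∧ z.2.2 ∉ z.2.1.2 := by
  rw [coA, Finset.mem_filter, Finset.mem_product, Finset.mem_product]

lemma coA_data {k l : ℕ} : ((coA A k l).image dat).card ≤ 4 ^ (k + l) * A.card ^ (k + l - 1) := by
  rcases Nat.eq_zero_or_pos k with hk | hk
  · have : coA A k l = ∅ := by
      rw [Finset.eq_empty_iff_forall_notMem]
      intro z hz
      rw [mem_coA] at hz
      obtain ⟨⟨h1, -, -⟩, -, -, h2, -⟩ := hz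
      have h3 := (mem_prs.1 h1).2.1
      rw [hk, Finset.card_eq_zero] at h3
      rw [h3] at h2
      exact absurd h2 (Finset.notMem_empty _)
    rw [this]; simp
  have h1 : ∀ D ∈ (coA A k l).image dat, D.1 ∈ A.powersetCard (k - 1) ×ˢ A.powersetCard l ∧
      D.2 ∈ (D.1.1 ∪ D.1.2).powerset ×ˢ (D.1.1 ∪ D.1.2).powerset := by
    intro D hD
    obtain ⟨z, hz, rfl⟩ := Finset.mem_image.1 hD
    rw [mem_coA] at hz
    obtain ⟨⟨h1, -, -⟩, -, -, h2, -⟩ := hz
    obtain ⟨a1, a2, a3, a4, a5⟩ := mem_prs.1 h1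
    simp only [dat, Finset.mem_product, Finset.mem_powersetCard, Finset.mem_powerset]
    refine ⟨⟨⟨(Finset.erase_subset _ _).trans a1, ?_⟩, a3, a4⟩, Finset.inter_subset_right,
      Finset.inter_subset_right⟩
    rw [Finset.card_erase_of_mem h2, a2]
  have h2 : ∀ d ∈ ((coA A k l).image dat).image Prod.fst,
      (((coA A k l).image dat).filter fun D => D.1 = d).card ≤ 4 ^ (k + l) := by
    intro d hd
    obtain ⟨D0, hD0, rfl⟩ := Finset.mem_image.1 hd
    have h3 := (h1 D0 hD0).1
    simp only [Finset.mem_product, Finset.mem_powersetCard] at h3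
    have h4 : (((coA A k l).image dat).filter fun D => D.1 = D0.1).card ≤
        ((D0.1.1 ∪ D0.1.2).powerset ×ˢ (D0.1.1 ∪ D0.1.2).powerset).card := by
      refine Finset.card_le_card_of_injOn Prod.snd ?_ ?_
      · intro D hD
        rw [Finset.mem_coe, Finset.mem_filter] at hD
        have := (h1 D hD.1).2
        rw [hD.2] at this
        exact this
      · intro D hD D' hD' heq
        rw [Finset.mem_coe, Finset.mem_filter] at hD hD'
        exact Prod.ext (hD.2.trans hD'.2.symm) heq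
    refine h4.trans ?_
    rw [Finset.card_product, Finset.card_powerset, ← pow_add, ← two_mul, pow_mul]
    refine Nat.pow_le_pow_right (by norm_num) ?_
    refine (Finset.card_union_le _ _).trans ?_
    rw [h3.1.2, h3.2.2]
    omega
  refine (Finset.card_le_mul_card_image _ _ h2).trans (Nat.mul_le_mul_left _ ?_)
  have h5 : ((coA A k l).image dat).image Prod.fst ⊆ A.powersetCard (k - 1) ×ˢ A.powersetCard l := by
    intro d hd
    obtain ⟨D, hD, rfl⟩ := Finset.mem_image.1 hd
    exact (h1 D hD).1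
  refine (Finset.card_le_card h5).trans ?_
  rw [Finset.card_product, Finset.card_powersetCard, Finset.card_powersetCard]
  calc A.card.choose (k - 1) * A.card.choose l ≤ A.card ^ (k - 1) * A.card ^ l :=
        Nat.mul_le_mul (Nat.choose_le_pow _ _) (Nat.choose_le_pow _ _)
    _ = A.card ^ (k + l - 1) := by rw [← pow_add]; congr 1; omega

/-- the unknown sets form a pair with prescribed sizes and prescribed difference -/
lemma unk_mem {k l : ℕ} {z : (Finset G × Finset G) × (Finset G × Finset G) × G}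
    (hz : z ∈ coA A k l) :
    unk z ∈ (prs A (k - (dat z).2.1.card) (l - (dat z).2.2.card + 1)).filter fun u => dif u =
      ∑ a ∈ (dat z).1.1, a - ∑ a ∈ (dat z).1.2, a - ∑ a ∈ (dat z).2.1, a +
        ∑ a ∈ (dat z).2.2, a ∧
      (k - (dat z).2.1.card) + (l - (dat z).2.2.card + 1) ≤ k + l := by
  rw [mem_coA] at hz
  obtain ⟨⟨h1, h2, hyA⟩, hdif, hcr, hy1, hy2, hy3⟩ := hz
  obtain ⟨⟨I, J⟩, ⟨I', J'⟩, y⟩ := z
  simp only at h1 h2 hdif hcr hy1 hy2 hy3 hyA
  obtain ⟨a1, a2, a3, a4, a5⟩ := mem_prs.1 h1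
  obtain ⟨b1, b2, b3, b4, b5⟩ := mem_prs.1 h2
  simp only at a1 a2 a3 a4 a5 b1 b2 b3 b4 b5
  simp only [dat, unk]
  set S := I.erase y ∪ J with hSdef
  have c1 : (I' ∩ S).card + (I' \ S).card = k := by
    rw [Finset.card_inter_add_card_sdiff, b2]
  have c2 : (J' ∩ S).card + (J' \ S).card = l := by
    rw [Finset.card_inter_add_card_sdiff, b4]
  have hyn : y ∉ J' \ S := fun h => hy3 (Finset.mem_sdiff.1 h).1
  have e1 : ∑ a ∈ I' ∩ S, a + ∑ a ∈ I' \ S, a = ∑ a ∈ I', a :=
    Finset.sum_inter_add_sum_sdiff I' S _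
  have e2 : ∑ a ∈ J' ∩ S, a + ∑ a ∈ J' \ S, a = ∑ a ∈ J', a :=
    Finset.sum_inter_add_sum_sdiff J' S _
  have e3 : y + ∑ a ∈ I.erase y, a = ∑ a ∈ I, a := Finset.add_sum_erase I (fun a => a) hy1
  have c3 : 1 ≤ (I' ∩ S).card + (J' ∩ S).card := by
    rcases hcr with ⟨x, hx⟩ | ⟨x, hx⟩
    · rw [Finset.mem_inter] at hx
      have hxy : x ≠ y := fun h => hy3 (h ▸ hx.2)
      have : x ∈ J' ∩ S := Finset.mem_inter.2 ⟨hx.2, Finset.mem_union_left _
        (Finset.mem_erase.2 ⟨hxy, hx.1⟩)⟩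
      have := Finset.card_pos.2 ⟨x, this⟩
      omega
    · rw [Finset.mem_inter] at hx
      have : x ∈ I' ∩ S := Finset.mem_inter.2 ⟨hx.2, Finset.mem_union_right _ hx.1⟩
      have := Finset.card_pos.2 ⟨x, this⟩
      omega
  rw [Finset.mem_filter, mem_prs]
  simp only
  refine ⟨⟨Finset.sdiff_subset.trans b1, by omega, ?_, ?_, ?_⟩, ?_, by omega⟩
  · exact Finset.insert_subset hyA (Finset.sdiff_subset.trans b3)
  · rw [Finset.card_insert_of_notMem hyn]; omega
  · rw [Finset.disjoint_insert_right]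
    exact ⟨fun h => hy2 (Finset.mem_sdiff.1 h).1,
      b5.mono Finset.sdiff_subset Finset.sdiff_subset⟩
  · simp only [dif] at hdif ⊢
    rw [Finset.sum_insert hyn]
    rw [← e3, ← e1, ← e2] at hdif
    have : ∑ a ∈ I' \ S, a = (y + ∑ a ∈ I.erase y, a) - ∑ a ∈ J, a +
        (∑ a ∈ J' ∩ S, a + ∑ a ∈ J' \ S, a) - ∑ a ∈ I' ∩ S, a := by
      rw [hdif]; abel
    rw [this]; abel

lemma card_coA {k l : ℕ} (hS : ∀ j ≤ k + l, SumsInj A j) :
    (coA A k l).card ≤ ((k + l) * 2 ^ (k + l)) * (4 ^ (k + l) * A.card ^ (k + l - 1)) := by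
  -- number of coincidences with given data
  have hfib : ∀ D ∈ (coA A k l).image dat, ((coA A k l).filter fun z => dat z = D).card ≤
      (k + l) * 2 ^ (k + l) := by
    intro D hD
    obtain ⟨z0, hz0, rfl⟩ := Finset.mem_image.1 hD
    have h0 := unk_mem hz0
    rw [Finset.mem_filter] at h0
    have hsz := h0.2.2
    -- image of `unk`
    have h1 : (((coA A k l).filter fun z => dat z = dat z0).image unk).card ≤ 2 ^ (k + l) := by
      have h2 : ((coA A k l).filter fun z => dat z = dat z0).image unk ⊆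
          (prs A (k - (dat z0).2.1.card) (l - (dat z0).2.2.card + 1)).filter fun u => dif u =
            ∑ a ∈ (dat z0).1.1, a - ∑ a ∈ (dat z0).1.2, a - ∑ a ∈ (dat z0).2.1, a +
              ∑ a ∈ (dat z0).2.2, a := by
        intro u hu
        obtain ⟨z, hz, rfl⟩ := Finset.mem_image.1 hu
        rw [Finset.mem_filter] at hz
        have h3 := unk_mem hz.1
        rw [hz.2, Finset.mem_filter] at h3
        rw [Finset.mem_filter]
        exact ⟨h3.1, h3.2.1⟩
      refine (Finset.card_le_card h2).trans ((card_fiber (hS _ hsz) _).trans ?_)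
      exact Nat.pow_le_pow_right (by norm_num) hsz
    have h4 : ∀ u ∈ ((coA A k l).filter fun z => dat z = dat z0).image unk,
        (((coA A k l).filter fun z => dat z = dat z0).filter fun z => unk z = u).card ≤ k + l := by
      intro u hu
      have hu' := hu
      obtain ⟨z1, hz1, rfl⟩ := Finset.mem_image.1 hu
      rw [Finset.mem_filter] at hz1
      have h5 := unk_mem hz1.1
      rw [Finset.mem_filter, mem_prs] at h5
      have h6 : (unk z1).2.card ≤ k + l := by
        have h7 := h5.1.2.2.2.1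
        have h8 := h5.2.2
        omega
      refine le_trans ?_ h6
      refine Finset.card_le_card_of_injOn (fun z => z.2.2) ?_ ?_
      · intro z hz
        rw [Finset.mem_coe, Finset.mem_filter] at hz
        rw [Finset.mem_coe, ← hz.2]
        exact Finset.mem_insert_self _ _
      · intro z hz z' hz' heq
        rw [Finset.mem_coe, Finset.mem_filter, Finset.mem_filter, mem_coA] at hz hz'
        obtain ⟨⟨⟨⟨g1, g2, g3⟩, g4, g5, g6, g7, g8⟩, g9⟩, g10⟩ := hz
        obtain ⟨⟨⟨⟨f1, f2, f3⟩, f4, f5, f6, f7, f8⟩, f9⟩, f10⟩ := hz'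
        have hd : dat z = dat z' := g9.trans f9.symm
        have hu : unk z = unk z' := g10.trans f10.symm
        obtain ⟨⟨I, J⟩, ⟨I', J'⟩, y⟩ := z
        obtain ⟨⟨K, L⟩, ⟨K', L'⟩, y'⟩ := z'
        simp only at g6 g7 g8 f6 f7 f8 heq
        subst heq
        simp only [dat, unk, Prod.mk.injEq] at hd hu
        obtain ⟨⟨d1, d2⟩, d3, d4⟩ := hd
        obtain ⟨u1, u2⟩ := hu
        have hI : I = K := by
          rw [← Finset.insert_erase g6, ← Finset.insert_erase f6, d1]
        subst d2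
        subst hI
        have hI' : I' = K' := by
          rw [← Finset.sdiff_union_inter I' (I.erase y ∪ J), u1, d3, Finset.sdiff_union_inter]
        have u3 : J' \ (I.erase y ∪ J) = L' \ (I.erase y ∪ J) := by
          have n1 : y ∉ J' \ (I.erase y ∪ J) := fun h => g8 (Finset.mem_sdiff.1 h).1
          have n2 : y ∉ L' \ (I.erase y ∪ J) := fun h => f8 (Finset.mem_sdiff.1 h).1
          rw [← Finset.erase_insert n1, ← Finset.erase_insert n2, u2]
        have hJ' : J' = L' := by
          rw [← Finset.sdiff_union_inter J' (I.erase y ∪ J), u3, d4, Finset.sdiff_union_inter]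
        rw [hI', hJ']
    exact (Finset.card_le_mul_card_image _ _ h4).trans (Nat.mul_le_mul_left _ h1)
  exact (Finset.card_le_mul_card_image _ _ hfib).trans (Nat.mul_le_mul_left _ coA_data)

/-- coincidences between pairs with the same union -/
def coB (A : Finset G) (k l : ℕ) : Finset ((Finset G × Finset G) × (Finset G × Finset G) × G) :=
  (prs A k l ×ˢ prs A k l ×ˢ A).filter fun z => dif z.1 = dif z.2.1 ∧
    z.1.1 ∪ z.1.2 = z.2.1.1 ∪ z.2.1.2 ∧ z.2.2 ∈ z.1.1 ∧ z.2.2 ∉ z.2.1.1

lemma mem_coB {k l : ℕ} {z : (Finset G × Finset G) × (Finset G × Finset G) × G} :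
    z ∈ coB A k l ↔ (z.1 ∈ prs A k l ∧ z.2.1 ∈ prs A k l ∧ z.2.2 ∈ A) ∧ dif z.1 = dif z.2.1 ∧
    z.1.1 ∪ z.1.2 = z.2.1.1 ∪ z.2.1.2 ∧ z.2.2 ∈ z.1.1 ∧ z.2.2 ∉ z.2.1.1 := by
  rw [coB, Finset.mem_filter, Finset.mem_product, Finset.mem_product]

/-- the data of a coincidence of the second kind -/
def datB (z : (Finset G × Finset G) × (Finset G × Finset G) × G) :
    (Finset G × Finset G) × Finset G :=
  ((z.1.1.erase z.2.2, z.1.2), z.2.1.1)

lemma card_coB {k l : ℕ} (hG : ∀ w : G, ∀ T : Finset G, (∀ x ∈ T, x + x = w) → T.card ≤ 2) :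
    (coB A k l).card ≤ 2 * (2 ^ (k + l) * A.card ^ (k + l - 1)) := by
  rcases Nat.eq_zero_or_pos k with hk | hk
  · have : coB A k l = ∅ := by
      rw [Finset.eq_empty_iff_forall_notMem]
      intro z hz
      rw [mem_coB] at hz
      obtain ⟨⟨h1, -, -⟩, -, -, h2, -⟩ := hz
      have h3 := (mem_prs.1 h1).2.1
      rw [hk, Finset.card_eq_zero] at h3
      rw [h3] at h2
      exact absurd h2 (Finset.notMem_empty _)
    rw [this]; simp
  have h1 : ∀ D ∈ (coB A k l).image datB, D.1 ∈ A.powersetCard (k - 1) ×ˢ A.powersetCard l ∧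
      D.2 ∈ (D.1.1 ∪ D.1.2).powerset := by
    intro D hD
    obtain ⟨z, hz, rfl⟩ := Finset.mem_image.1 hD
    rw [mem_coB] at hz
    obtain ⟨⟨h1, -, -⟩, -, hU, h2, h3⟩ := hz
    obtain ⟨a1, a2, a3, a4, a5⟩ := mem_prs.1 h1
    simp only [datB, Finset.mem_product, Finset.mem_powersetCard, Finset.mem_powerset]
    refine ⟨⟨⟨(Finset.erase_subset _ _).trans a1, ?_⟩, a3, a4⟩, ?_⟩
    · rw [Finset.card_erase_of_mem h2, a2]
    · intro x hx
      have hx' : x ∈ z.1.1 ∪ z.1.2 := hU ▸ Finset.mem_union_left _ hx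
      have hne : x ≠ z.2.2 := fun h => h3 (h ▸ hx)
      rcases Finset.mem_union.1 hx' with h | h
      · exact Finset.mem_union_left _ (Finset.mem_erase.2 ⟨hne, h⟩)
      · exact Finset.mem_union_right _ h
  have hdata : ((coB A k l).image datB).card ≤ 2 ^ (k + l) * A.card ^ (k + l - 1) := by
    have h2 : ∀ d ∈ ((coB A k l).image datB).image Prod.fst,
        (((coB A k l).image datB).filter fun D => D.1 = d).card ≤ 2 ^ (k + l) := by
      intro d hd
      obtain ⟨D0, hD0, rfl⟩ := Finset.mem_image.1 hd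
      have h3 := (h1 D0 hD0).1
      simp only [Finset.mem_product, Finset.mem_powersetCard] at h3
      have h4 : (((coB A k l).image datB).filter fun D => D.1 = D0.1).card ≤
          (D0.1.1 ∪ D0.1.2).powerset.card := by
        refine Finset.card_le_card_of_injOn Prod.snd ?_ ?_
        · intro D hD
          rw [Finset.mem_coe, Finset.mem_filter] at hD
          have := (h1 D hD.1).2
          rw [hD.2] at this
          exact this
        · intro D hD D' hD' heq
          rw [Finset.mem_coe, Finset.mem_filter] at hD hD'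
          exact Prod.ext (hD.2.trans hD'.2.symm) heq
      refine h4.trans ?_
      rw [Finset.card_powerset]
      refine Nat.pow_le_pow_right (by norm_num) ?_
      refine (Finset.card_union_le _ _).trans ?_
      rw [h3.1.2, h3.2.2]
      omega
    refine (Finset.card_le_mul_card_image _ _ h2).trans (Nat.mul_le_mul_left _ ?_)
    have h5 : ((coB A k l).image datB).image Prod.fst ⊆
        A.powersetCard (k - 1) ×ˢ A.powersetCard l := by
      intro d hd
      obtain ⟨D, hD, rfl⟩ := Finset.mem_image.1 hd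
      exact (h1 D hD).1
    refine (Finset.card_le_card h5).trans ?_
    rw [Finset.card_product, Finset.card_powersetCard, Finset.card_powersetCard]
    calc A.card.choose (k - 1) * A.card.choose l ≤ A.card ^ (k - 1) * A.card ^ l :=
          Nat.mul_le_mul (Nat.choose_le_pow _ _) (Nat.choose_le_pow _ _)
      _ = A.card ^ (k + l - 1) := by rw [← pow_add]; congr 1; omega
  -- structure of a coincidence
  have hstr : ∀ z ∈ coB A k l, z.2.1.2 = (insert z.2.2 (datB z).1.1 ∪ (datB z).1.2) \ (datB z).2 ∧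
      z.2.2 + z.2.2 = (∑ a ∈ (datB z).2, a + ∑ a ∈ (datB z).2, a) -
        (∑ a ∈ (datB z).1.1, a + ∑ a ∈ (datB z).1.1, a) := by
    intro z hz
    rw [mem_coB] at hz
    obtain ⟨⟨g1, g2, g3⟩, hdif, hU, hy1, hy2⟩ := hz
    obtain ⟨⟨I, J⟩, ⟨I', J'⟩, y⟩ := z
    simp only at g1 g2 g3 hdif hU hy1 hy2
    obtain ⟨a1, a2, a3, a4, a5⟩ := mem_prs.1 g1
    obtain ⟨b1, b2, b3, b4, b5⟩ := mem_prs.1 g2
    simp only at a1 a2 a3 a4 a5 b1 b2 b3 b4 b5
    simp only [datB]
    rw [Finset.insert_erase hy1, hU]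
    refine ⟨?_, ?_⟩
    · rw [Finset.union_sdiff_left]
      exact (Finset.sdiff_eq_self_of_disjoint b5.symm).symm
    · have e1 : ∑ a ∈ I, a + ∑ a ∈ J, a = ∑ a ∈ I', a + ∑ a ∈ J', a := by
        rw [← Finset.sum_union a5, ← Finset.sum_union b5, hU]
      have e2 : y + ∑ a ∈ I.erase y, a = ∑ a ∈ I, a := Finset.add_sum_erase I (fun a => a) hy1
      simp only [dif] at hdif
      have e3 : ∑ a ∈ I, a + ∑ a ∈ I, a = ∑ a ∈ I', a + ∑ a ∈ I', a := by
        have e4 : ∑ a ∈ I, a + ∑ a ∈ I, a = (∑ a ∈ I, a + ∑ a ∈ J, a) + (∑ a ∈ I, a - ∑ a ∈ J, a) := by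
          abel
        rw [e4, e1, hdif]; abel
      rw [← e3, ← e2]; abel
  have hfib : ∀ D ∈ (coB A k l).image datB, ((coB A k l).filter fun z => datB z = D).card ≤ 2 := by
    intro D hD
    have h2 : ((coB A k l).filter fun z => datB z = D).card ≤
        (((coB A k l).filter fun z => datB z = D).image fun z => z.2.2).card := by
      rw [Finset.card_image_of_injOn]
      intro z hz z' hz' heq
      rw [Finset.mem_coe, Finset.mem_filter] at hz hz'
      have s1 := (hstr z hz.1).1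
      have s2 := (hstr z' hz'.1).1
      have m1 := mem_coB.1 hz.1
      have m2 := mem_coB.1 hz'.1
      rw [hz.2] at s1
      rw [hz'.2] at s2
      obtain ⟨⟨I, J⟩, ⟨I', J'⟩, y⟩ := z
      obtain ⟨⟨K, L⟩, ⟨K', L'⟩, y'⟩ := z'
      simp only at heq s1 s2
      subst heq
      have hd : datB ((I, J), (I', J'), y) = datB ((K, L), (K', L'), y) := hz.2.trans hz'.2.symm
      simp only [datB, Prod.mk.injEq] at hd
      obtain ⟨⟨d1, d2⟩, d3⟩ := hd
      have hI : I = K := by
        have q1 : y ∈ I := m1.2.2.2.1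
        have q2 : y ∈ K := m2.2.2.2.1
        rw [← Finset.insert_erase q1, ← Finset.insert_erase q2, d1]
      rw [hI, d2, d3, s1, s2]
    refine h2.trans (hG ((∑ a ∈ D.2, a + ∑ a ∈ D.2, a) - (∑ a ∈ D.1.1, a + ∑ a ∈ D.1.1, a)) _ ?_)
    intro x hx
    obtain ⟨z, hz, rfl⟩ := Finset.mem_image.1 hx
    rw [Finset.mem_filter] at hz
    rw [← hz.2]
    exact (hstr z hz.1).2
  exact (Finset.card_le_mul_card_image _ _ hfib).trans (Nat.mul_le_mul_left _ hdata)

end

lemma zmod_double (n : ℕ) [NeZero n] (w : ZMod n) (T : Finset (ZMod n)) (hT : ∀ x ∈ T, x + x = w) :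
    T.card ≤ 2 := by
  by_contra hcon
  push Not at hcon
  obtain ⟨a, ha, b, hb, c, hc, hab, hac, hbc⟩ := Finset.two_lt_card.1 hcon
  have key : ∀ x y : ZMod n, x + x = w → y + y = w → x.val < y.val → 2 * (y.val - x.val) = n := by
    intro x y hx hy hlt
    have h1 : ((2 * (y.val - x.val) : ℕ) : ZMod n) = 0 := by
      rw [Nat.cast_mul, Nat.cast_sub hlt.le, ZMod.natCast_zmod_val, ZMod.natCast_zmod_val]
      have : (x + x : ZMod n) = y + y := hx.trans hy.symm
      push_cast
      linear_combination -this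
    rw [ZMod.natCast_eq_zero_iff] at h1
    obtain ⟨q, hq⟩ := h1
    have h2 := ZMod.val_lt y
    have h3 : 2 * (y.val - x.val) < n * 2 := by omega
    rw [hq] at h3
    have h4 : q < 2 := Nat.lt_of_mul_lt_mul_left h3
    have h5 : q ≠ 0 := by rintro rfl; omega
    have : q = 1 := by omega
    rw [this, mul_one] at hq
    exact hq
  have hv : ∀ x y : ZMod n, x ≠ y → x.val ≠ y.val := fun x y h h' => h (ZMod.val_injective n h')
  have h1 := hv a b hab
  have h2 := hv a c hac
  have h3 := hv b c hbc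
  have k1 := hT a ha
  have k2 := hT b hb
  have k3 := hT c hc
  rcases lt_or_gt_of_ne h1 with g1 | g1 <;> rcases lt_or_gt_of_ne h2 with g2 | g2 <;>
    rcases lt_or_gt_of_ne h3 with g3 | g3 <;>
    first
    | omega
    | (have q1 := key a b k1 k2 ‹_›; have q2 := key b c k2 k3 ‹_›; have q3 := key a c k1 k3 ‹_›; omega)
    | (have q1 := key a c k1 k3 ‹_›; have q2 := key c b k3 k2 ‹_›; have q3 := key a b k1 k2 ‹_›; omega)
    | (have q1 := key b a k2 k1 ‹_›; have q2 := key a c k1 k3 ‹_›; have q3 := key b c k2 k3 ‹_›; omega)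
    | (have q1 := key b c k2 k3 ‹_›; have q2 := key c a k3 k1 ‹_›; have q3 := key b a k2 k1 ‹_›; omega)
    | (have q1 := key c a k3 k1 ‹_›; have q2 := key a b k1 k2 ‹_›; have q3 := key c b k3 k2 ‹_›; omega)
    | (have q1 := key c b k3 k2 ‹_›; have q2 := key b a k2 k1 ‹_›; have q3 := key c a k3 k1 ‹_›; omega)

lemma dif_swap {G : Type*} [AddCommGroup G] (s : Finset G × Finset G) : dif s.swap = - dif s := by
  simp [dif]

lemma swap_mem_prs {G : Type*} [AddCommGroup G] [DecidableEq G] {A : Finset G} {k l : ℕ}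
    {s : Finset G × Finset G} (hs : s ∈ prs A k l) : s.swap ∈ prs A l k := by
  rw [mem_prs] at hs ⊢
  obtain ⟨a1, a2, a3, a4, a5⟩ := hs
  exact ⟨a3, a4, a1, a2, a5.symm⟩

/-- If the trivial bound `C(m,h)` is attained then `n` is at least about `C(h,k) C(m,h)`. -/
theorem window (n m h k : ℕ) [NeZero n] (hk : k ≤ h) (hm : 2 * h ≤ m) (hmn : m ≤ n)
    (hfull : m.choose h ≤ nuHat (ZMod n) m h) :
    h.choose k * m.choose h ≤ n + (2 * h + 2) * 8 ^ h * m ^ (h - 1) := by
  obtain ⟨A, hA, hA'⟩ := exists_attain (G := ZMod n) (m := m) h (by rw [ZMod.card]; exact hmn)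
  obtain ⟨l, rfl⟩ := Nat.exists_eq_add_of_le hk
  have hS0 : SumsInj A (k + l) := sumsInj_of_card (by rw [hA, hA']; exact hfull)
  have hS : ∀ j ≤ k + l, SumsInj A j := fun j hj => hS0.mono hj (by rw [hA]; exact hm)
  have h1 := card_le_image_add (dif (G := ZMod n)) (prs A k l)
  rw [card_prs, hA] at h1
  have h2 : ((prs A k l).image dif).card ≤ n := by
    refine (Finset.card_le_univ _).trans ?_
    rw [ZMod.card]
  have h3 : ((prs A k l ×ˢ prs A k l).filter fun p => p.1 ≠ p.2 ∧ dif p.1 = dif p.2) ⊆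
      ((coA A k l).image fun z => (z.1, z.2.1)) ∪
        (((coA A l k).image fun z => (z.1.swap, z.2.1.swap)) ∪
          ((coB A k l).image fun z => (z.1, z.2.1))) := by
    rintro ⟨s, t⟩ hst
    rw [Finset.mem_filter, Finset.mem_product] at hst
    obtain ⟨⟨hs, ht⟩, hne, hdif⟩ := hst
    simp only at hs ht hne hdif
    have hcr := crossing hS0 hs ht hdif hne
    have hs' := mem_prs.1 hs
    have ht' := mem_prs.1 ht
    rw [Finset.mem_union, Finset.mem_union]
    by_cases c1 : ∃ y ∈ s.1, y ∉ t.1 ∧ y ∉ t.2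
    · obtain ⟨y, hy, hy1, hy2⟩ := c1
      left
      exact Finset.mem_image.2 ⟨(s, t, y), mem_coA.2 ⟨⟨hs, ht, hs'.1 hy⟩, hdif, hcr, hy, hy1, hy2⟩, rfl⟩
    by_cases c2 : ∃ y ∈ s.2, y ∉ t.1 ∧ y ∉ t.2
    · obtain ⟨y, hy, hy1, hy2⟩ := c2
      right; left
      refine Finset.mem_image.2 ⟨(s.swap, t.swap, y), mem_coA.2 ⟨⟨swap_mem_prs hs, swap_mem_prs ht,
        hs'.2.2.1 hy⟩, ?_, ?_, hy, hy2, hy1⟩, rfl⟩
      · simp only [dif_swap, hdif]
      · rcases hcr with h | h
        · right; exact h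
        · left; exact h
    right; right
    push Not at c1 c2
    have hsub : s.1 ∪ s.2 ⊆ t.1 ∪ t.2 := by
      intro y hy
      rw [Finset.mem_union] at hy ⊢
      by_contra hcon
      push Not at hcon
      rcases hy with h | h
      · exact hcon.2 (c1 y h hcon.1)
      · exact hcon.2 (c2 y h hcon.1)
    have hU : s.1 ∪ s.2 = t.1 ∪ t.2 := by
      refine Finset.eq_of_subset_of_card_le hsub ?_
      rw [Finset.card_union_of_disjoint hs'.2.2.2.2, Finset.card_union_of_disjoint ht'.2.2.2.2,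
        hs'.2.1, hs'.2.2.2.1, ht'.2.1, ht'.2.2.2.1]
    have hex : ∃ y ∈ s.1, y ∉ t.1 := by
      by_contra hcon
      push Not at hcon
      apply hne
      have e1 : s.1 = t.1 := Finset.eq_of_subset_of_card_le hcon (by rw [hs'.2.1, ht'.2.1])
      have e2 : s.2 = t.2 := by
        have q1 : (s.1 ∪ s.2) \ s.1 = s.2 := by
          rw [Finset.union_sdiff_left]
          exact Finset.sdiff_eq_self_of_disjoint hs'.2.2.2.2.symm
        have q2 : (t.1 ∪ t.2) \ t.1 = t.2 := by
          rw [Finset.union_sdiff_left]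
          exact Finset.sdiff_eq_self_of_disjoint ht'.2.2.2.2.symm
        rw [← q1, ← q2, hU, e1]
      exact Prod.ext e1 e2
    obtain ⟨y, hy, hy1⟩ := hex
    exact Finset.mem_image.2 ⟨(s, t, y), mem_coB.2 ⟨⟨hs, ht, hs'.1 hy⟩, hdif, hU, hy, hy1⟩, rfl⟩
  have h4 := (Finset.card_le_card h3).trans ((Finset.card_union_le _ _).trans
    (Nat.add_le_add Finset.card_image_le ((Finset.card_union_le _ _).trans
      (Nat.add_le_add Finset.card_image_le Finset.card_image_le))))
  have h5 := card_coA hS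
  have h6 := card_coA (A := A) (k := l) (l := k) (fun j hj => hS j (by omega))
  have h7 := card_coB (A := A) (k := k) (l := l) (zmod_double n)
  rw [hA] at h5 h6 h7
  rw [Nat.add_comm l k] at h6
  set M := m ^ (k + l - 1) with hM
  have e8 : (8 : ℕ) ^ (k + l) = 2 ^ (k + l) * 4 ^ (k + l) := by rw [← mul_pow]; norm_num
  have h8 : ((k + l) * 2 ^ (k + l)) * (4 ^ (k + l) * M) = (k + l) * 8 ^ (k + l) * M := by
    rw [e8]; ring
  rw [h8] at h5 h6
  have h9 : 2 * (2 ^ (k + l) * M) ≤ 2 * 8 ^ (k + l) * M := by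
    have : (2 : ℕ) ^ (k + l) ≤ 8 ^ (k + l) := Nat.pow_le_pow_left (by norm_num) _
    calc 2 * (2 ^ (k + l) * M) = 2 * 2 ^ (k + l) * M := by ring
      _ ≤ _ := Nat.mul_le_mul_right _ (Nat.mul_le_mul_left _ this)
  have h10 : (k + l).choose k * m.choose (k + l) = m.choose (k + l) * (k + l).choose k := mul_comm _ _
  rw [h10]
  calc m.choose (k + l) * (k + l).choose k
      ≤ n + ((k + l) * 8 ^ (k + l) * M + ((k + l) * 8 ^ (k + l) * M + 2 * 8 ^ (k + l) * M)) := by
        omega
    _ = n + (2 * (k + l) + 2) * 8 ^ (k + l) * M := by ring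

end Pool.Agent.MP_5949a1
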